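import Pool.Agent.LibOrth.Cover

set_option autoImplicit false

namespace Pool.Agent.LibOrth

section core

variable {A : Type*} [CommRing A]

/-- weighted inner product on `A^5` -/
def W (P : Fin 5 → A) (u w : Fin 5 → A) : A := ∑ a, P a * u a * w a

lemma W_symm (P u w : Fin 5 → A) : W P u w = W P w u := by
  unfold W
  exact Finset.sum_congr rfl (fun a _ => by ring)

lemma d_W (d : Derivation ℤ A A) (P u w : Fin 5 → A) :
    d (W P u w) = W (fun a => d (P a)) u w + W P (fun a => d (u a)) w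
      + W P u (fun a => d (w a)) := by
  unfold W
  rw [map_sum, ← Finset.sum_add_distrib, ← Finset.sum_add_distrib]
  refine Finset.sum_congr rfl (fun a _ => ?_)
  simp only [Derivation.leibniz, smul_eq_mul]
  ring

/-- Parseval in an orthogonal frame with unit norms. -/
lemma parseval (P : Fin 5 → A) (B : Fin 5 → Fin 5 → A)
    (horth : ∀ i j, i ≠ j → W P (B i) (B j) = 0)
    (N' : Fin 5 → A) (hN' : ∀ i, N' i * W P (B i) (B i) = 1)
    (u w : Fin 5 → A) : W P u w = ∑ i, N' i * W P u (B i) * W P w (B i) := by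
  set M : Matrix (Fin 5) (Fin 5) A := Matrix.of B with hM
  set Q : Matrix (Fin 5) (Fin 5) A := Matrix.diagonal P with hQ
  set N : Matrix (Fin 5) (Fin 5) A := Matrix.diagonal N' with hN
  have h1 : N * (M * Q) * M.transpose = 1 := by
    ext i j
    rw [Matrix.mul_assoc, hN, Matrix.diagonal_mul]
    have : ((M * Q) * M.transpose) i j = W P (B i) (B j) := by
      rw [Matrix.mul_apply]
      unfold W
      refine Finset.sum_congr rfl (fun a _ => ?_)
      rw [hQ, Matrix.mul_diagonal]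
      simp [hM]
      ring
    rw [this]
    by_cases hij : i = j
    · subst hij
      simp [hN' i]
    · simp [horth i j hij, hij]
  have h2 : M.transpose * (N * (M * Q)) = 1 := mul_eq_one_comm.1 h1
  have h3 : (M.transpose * (N * (M * Q))).mulVec w = w := by rw [h2, Matrix.one_mulVec]
  have h4 : ∀ a, w a = ∑ i, B i a * (N' i * W P w (B i)) := by
    intro a
    conv_lhs => rw [← h3]
    rw [← Matrix.mulVec_mulVec, ← Matrix.mulVec_mulVec]
    simp only [Matrix.mulVec, dotProduct, Matrix.transpose_apply]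
    refine Finset.sum_congr rfl (fun i _ => ?_)
    rw [hN]
    simp only [Matrix.diagonal_apply, ite_mul, zero_mul, Finset.sum_ite_eq, Finset.mem_univ,
      if_true]
    have : ∑ x, (M * Q) i x * w x = W P w (B i) := by
      unfold W
      refine Finset.sum_congr rfl (fun b _ => ?_)
      rw [hQ, Matrix.mul_diagonal]
      simp [hM]
      ring
    rw [this]
    simp [hM]
  have h5 : W P u w = ∑ a, P a * u a * (∑ i, B i a * (N' i * W P w (B i))) := by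
    unfold W
    refine Finset.sum_congr rfl (fun a _ => ?_)
    rw [h4 a]
    rfl
  rw [h5]
  simp_rw [Finset.mul_sum]
  rw [Finset.sum_comm]
  refine Finset.sum_congr rfl (fun i _ => ?_)
  have : W P u (B i) = ∑ a, P a * u a * B i a := rfl
  rw [this, Finset.mul_sum, Finset.sum_mul]
  refine Finset.sum_congr rfl (fun a _ => ?_)
  ring

/-- A commutative ring with four commuting derivations and an evaluation at a point. -/
structure DRing (A : Type*) [CommRing A] where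
  d : Fin 4 → Derivation ℤ A A
  comm : ∀ k l x, d k (d l x) = d l (d k x)
  ev : A →+* ℝ
  unit : ∀ x, ev x ≠ 0 → IsUnit x

def phi (Y : Fin 4 → A) : A :=
  Y 0 + Y 1 + Y 2 + Y 3 + Y 0 ^ 3 * Y 1 + Y 1 ^ 3 * Y 2 + Y 2 ^ 3 * Y 3 + Y 3 ^ 3 * Y 0

def Pw (Y : Fin 4 → A) : Fin 5 → A :=
  ![1 + 3 * Y 0 ^ 2 * Y 1 + Y 3 ^ 3, 1 + Y 0 ^ 3 + 3 * Y 1 ^ 2 * Y 2,
    1 + Y 1 ^ 3 + 3 * Y 2 ^ 2 * Y 3, 1 + Y 2 ^ 3 + 3 * Y 3 ^ 2 * Y 0, 1]

def Yv (Y : Fin 4 → A) : Fin 5 → A := ![Y 0, Y 1, Y 2, Y 3, phi Y]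

def nn : Fin 5 → A := ![1, 1, 1, 1, -1]

variable (R : DRing A)

def DRing.I : Ideal A := RingHom.ker R.ev

lemma mem_I {x : A} : x ∈ R.I ↔ R.ev x = 0 := by
  unfold DRing.I; exact RingHom.mem_ker

lemma d_mem (k : Fin 4) {x : A} (hx : x ∈ R.I ^ 2) : R.d k x ∈ R.I := by
  rw [pow_two] at hx
  refine Submodule.mul_induction_on hx ?_ ?_
  · intro a ha b hb
    rw [Derivation.leibniz]
    exact Ideal.add_mem _ (Ideal.mul_mem_right _ _ ha) (Ideal.mul_mem_right _ _ hb)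
  · intro a b ha hb
    rw [map_add]
    exact Ideal.add_mem _ ha hb

lemma ev_d_mem (k : Fin 4) {x : A} (hx : x ∈ R.I ^ 2) : R.ev (R.d k x) = 0 :=
  (mem_I R).1 (d_mem R k hx)

lemma YY_mem {Y : Fin 4 → A} (hY : ∀ a, R.ev (Y a) = 0) (i j : Fin 4) :
    Y i * Y j ∈ R.I ^ 2 := by
  rw [pow_two]
  exact Ideal.mul_mem_mul ((mem_I R).2 (hY i)) ((mem_I R).2 (hY j))

lemma dP_mem {Y : Fin 4 → A} (hY : ∀ a, R.ev (Y a) = 0) (m : Fin 4) (a : Fin 5) :
    R.d m (Pw Y a) ∈ R.I ^ 2 := by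
  have h : ∀ i j (x : A), Y i * Y j * x ∈ R.I ^ 2 := fun i j x =>
    Ideal.mul_mem_right _ _ (YY_mem R hY i j)
  fin_cases a
  · have e : R.d m (Pw Y 0) = Y 0 * Y 1 * (6 * R.d m (Y 0)) + Y 0 * Y 0 * (3 * R.d m (Y 1))
        + Y 3 * Y 3 * (3 * R.d m (Y 3)) := by
      have h3 : R.d m (3 : A) = 0 := by exact_mod_cast (R.d m).map_natCast 3
      simp only [Pw, Matrix.cons_val_zero, map_add, Derivation.leibniz, Derivation.leibniz_pow,
        Derivation.map_one_eq_zero, smul_eq_mul, nsmul_eq_mul, h3]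
      push_cast
      ring
    change R.d m (Pw Y 0) ∈ _
    rw [e]
    exact Ideal.add_mem _ (Ideal.add_mem _ (h _ _ _) (h _ _ _)) (h _ _ _)
  · have e : R.d m (Pw Y 1) = Y 0 * Y 0 * (3 * R.d m (Y 0)) + Y 1 * Y 2 * (6 * R.d m (Y 1))
        + Y 1 * Y 1 * (3 * R.d m (Y 2)) := by
      have h3 : R.d m (3 : A) = 0 := by exact_mod_cast (R.d m).map_natCast 3
      simp only [Pw, Matrix.cons_val_one, Matrix.cons_val_zero, map_add, Derivation.leibniz,
        Derivation.leibniz_pow, Derivation.map_one_eq_zero, smul_eq_mul, nsmul_eq_mul, h3]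
      push_cast
      ring
    change R.d m (Pw Y 1) ∈ _
    rw [e]
    exact Ideal.add_mem _ (Ideal.add_mem _ (h _ _ _) (h _ _ _)) (h _ _ _)
  · have e : R.d m (Pw Y 2) = Y 1 * Y 1 * (3 * R.d m (Y 1)) + Y 2 * Y 3 * (6 * R.d m (Y 2))
        + Y 2 * Y 2 * (3 * R.d m (Y 3)) := by
      have h3 : R.d m (3 : A) = 0 := by exact_mod_cast (R.d m).map_natCast 3
      simp only [Pw, Matrix.cons_val, map_add, Derivation.leibniz,
        Derivation.leibniz_pow, Derivation.map_one_eq_zero, smul_eq_mul, nsmul_eq_mul, h3]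
      push_cast
      ring
    change R.d m (Pw Y 2) ∈ _
    rw [e]
    exact Ideal.add_mem _ (Ideal.add_mem _ (h _ _ _) (h _ _ _)) (h _ _ _)
  · have e : R.d m (Pw Y 3) = Y 2 * Y 2 * (3 * R.d m (Y 2)) + Y 3 * Y 0 * (6 * R.d m (Y 3))
        + Y 3 * Y 3 * (3 * R.d m (Y 0)) := by
      have h3 : R.d m (3 : A) = 0 := by exact_mod_cast (R.d m).map_natCast 3
      simp only [Pw, Matrix.cons_val, map_add, Derivation.leibniz,
        Derivation.leibniz_pow, Derivation.map_one_eq_zero, smul_eq_mul, nsmul_eq_mul, h3]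
      push_cast
      ring
    change R.d m (Pw Y 3) ∈ _
    rw [e]
    exact Ideal.add_mem _ (Ideal.add_mem _ (h _ _ _) (h _ _ _)) (h _ _ _)
  · have e : R.d m (Pw Y 4) = 0 := by
      simp [Pw]
    change R.d m (Pw Y 4) ∈ _
    rw [e]
    exact Ideal.zero_mem _

/-- `∂_k` of the vector `Yv` -/
def Dv (k : Fin 4) (u : Fin 5 → A) : Fin 5 → A := fun a => R.d k (u a)

lemma Dv_comm (k l : Fin 4) (u : Fin 5 → A) : Dv R k (Dv R l u) = Dv R l (Dv R k u) := by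
  funext a
  exact R.comm k l (u a)

/-- The hypothesis that the chart `Y` is orthogonal for the (conformal) metric. -/
structure Chart (Y : Fin 4 → A) : Prop where
  ev0 : ∀ a, R.ev (Y a) = 0
  orth : ∀ k l, k ≠ l → W (Pw Y) (Dv R k (Yv Y)) (Dv R l (Yv Y)) = 0
  inv : IsUnit (Matrix.of (fun k a : Fin 4 => R.ev (R.d k (Y a))))

variable {R} {Y : Fin 4 → A}

lemma W_nn (k : Fin 4) : W (Pw Y) nn (Dv R k (Yv Y)) = 0 := by
  have h3 : R.d k (3 : A) = 0 := by exact_mod_cast (R.d k).map_natCast 3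
  unfold W
  rw [Fin.sum_univ_five]
  simp only [Pw, nn, Dv, Yv, phi, Matrix.cons_val, map_add, Derivation.leibniz,
    Derivation.leibniz_pow, smul_eq_mul, nsmul_eq_mul]
  push_cast
  ring

lemma C_mem (h : Chart R Y) (m : Fin 4) (u w : Fin 5 → A) :
    W (fun a => R.d m (Pw Y a)) u w ∈ R.I ^ 2 := by
  unfold W
  refine Ideal.sum_mem _ (fun a _ => ?_)
  exact Ideal.mul_mem_right _ _ (Ideal.mul_mem_right _ _ (dP_mem R h.ev0 m a))

lemma W_nn2 (h : Chart R Y) (k l : Fin 4) :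
    W (Pw Y) (Dv R k (Dv R l (Yv Y))) nn ∈ R.I ^ 2 := by
  have h1 := d_W (R.d k) (Pw Y) nn (Dv R l (Yv Y))
  rw [W_nn, map_zero] at h1
  have h2 : W (Pw Y) (fun a => R.d k ((nn : Fin 5 → A) a)) (Dv R l (Yv Y)) = 0 := by
    unfold W
    refine Finset.sum_eq_zero (fun a _ => ?_)
    have : R.d k ((nn : Fin 5 → A) a) = 0 := by
      fin_cases a <;> simp [nn]
    change Pw Y a * (R.d k ((nn : Fin 5 → A) a)) * Dv R l (Yv Y) a = 0
    rw [this]
    ring
  rw [h2] at h1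
  have h3 : W (Pw Y) (Dv R k (Dv R l (Yv Y))) nn
      = - W (fun a => R.d k (Pw Y a)) nn (Dv R l (Yv Y)) := by
    rw [W_symm]
    have : W (Pw Y) nn (Dv R k (Dv R l (Yv Y)))
      = W (Pw Y) nn (fun a => R.d k (Dv R l (Yv Y) a)) := rfl
    rw [this]
    linear_combination -h1
  rw [h3]
  exact neg_mem (C_mem h k _ _)

/-- Dupin: `⟨Y_k, Y_lm⟩ ∈ I²` for distinct indices -/
lemma dupin (h : Chart R Y) {k l m : Fin 4} (hkl : k ≠ l) (hkm : k ≠ m) (hlm : l ≠ m) :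
    2 * W (Pw Y) (Dv R k (Yv Y)) (Dv R l (Dv R m (Yv Y)))
      = - W (fun a => R.d m (Pw Y a)) (Dv R k (Yv Y)) (Dv R l (Yv Y))
        - W (fun a => R.d l (Pw Y a)) (Dv R k (Yv Y)) (Dv R m (Yv Y))
        + W (fun a => R.d k (Pw Y a)) (Dv R l (Yv Y)) (Dv R m (Yv Y)) := by
  have e1 := d_W (R.d m) (Pw Y) (Dv R k (Yv Y)) (Dv R l (Yv Y))
  have e2 := d_W (R.d l) (Pw Y) (Dv R k (Yv Y)) (Dv R m (Yv Y))
  have e3 := d_W (R.d k) (Pw Y) (Dv R l (Yv Y)) (Dv R m (Yv Y))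
  rw [h.orth k l hkl, map_zero] at e1
  rw [h.orth k m hkm, map_zero] at e2
  rw [h.orth l m hlm, map_zero] at e3
  have c1 : (fun a => R.d m (Dv R k (Yv Y) a)) = Dv R m (Dv R k (Yv Y)) := rfl
  have c2 : (fun a => R.d m (Dv R l (Yv Y) a)) = Dv R l (Dv R m (Yv Y)) := Dv_comm R m l _
  have c3 : (fun a => R.d l (Dv R k (Yv Y) a)) = Dv R l (Dv R k (Yv Y)) := rfl
  have c4 : (fun a => R.d l (Dv R m (Yv Y) a)) = Dv R l (Dv R m (Yv Y)) := rfl
  have c5 : (fun a => R.d k (Dv R l (Yv Y) a)) = Dv R l (Dv R k (Yv Y)) := Dv_comm R k l _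
  have c6 : (fun a => R.d k (Dv R m (Yv Y) a)) = Dv R m (Dv R k (Yv Y)) := Dv_comm R k m _
  rw [c1, c2] at e1
  rw [c3, c4] at e2
  rw [c5, c6] at e3
  rw [W_symm (Pw Y) (Dv R m (Dv R k (Yv Y))) (Dv R l (Yv Y))] at e1
  rw [W_symm (Pw Y) (Dv R l (Dv R k (Yv Y))) (Dv R m (Yv Y))] at e2
  rw [W_symm (Pw Y) (Dv R l (Dv R k (Yv Y))) (Dv R m (Yv Y))] at e3
  linear_combination -e1 - e2 + e3

lemma two_mem {x : A} (h2 : IsUnit (2 : A)) {J : Ideal A} (hx : 2 * x ∈ J) : x ∈ J := by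
  obtain ⟨u, hu⟩ := h2
  have := Ideal.mul_mem_left J ((u⁻¹ : Aˣ) : A) hx
  rw [← mul_assoc, ← hu, Units.inv_mul, one_mul] at this
  exact this

lemma isUnit_two (R : DRing A) : IsUnit (2 : A) := R.unit 2 (by rw [map_ofNat]; norm_num)

lemma dupin_mem (h : Chart R Y) {k l m : Fin 4} (hkl : k ≠ l) (hkm : k ≠ m) (hlm : l ≠ m) :
    W (Pw Y) (Dv R k (Yv Y)) (Dv R l (Dv R m (Yv Y))) ∈ R.I ^ 2 := by
  apply two_mem (isUnit_two R)
  rw [dupin h hkl hkm hlm]
  exact Ideal.add_mem _ (Ideal.sub_mem _ (neg_mem (C_mem h _ _ _)) (C_mem h _ _ _))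
    (C_mem h _ _ _)

/-- real Jacobian -/
def Jc (R : DRing A) (Y : Fin 4 → A) (k : Fin 4) (a : Fin 4) : ℝ := R.ev (R.d k (Y a))

/-- the frame in `ℝ⁵` -/
def fr (R : DRing A) (Y : Fin 4 → A) (k : Fin 4) : Fin 5 → ℝ :=
  ![Jc R Y k 0, Jc R Y k 1, Jc R Y k 2, Jc R Y k 3,
    -(Jc R Y k 0 + Jc R Y k 1 + Jc R Y k 2 + Jc R Y k 3)]

lemma ev_dphi (h : Chart R Y) (k : Fin 4) :
    R.ev (R.d k (phi Y)) = Jc R Y k 0 + Jc R Y k 1 + Jc R Y k 2 + Jc R Y k 3 := by
  simp [phi, Derivation.leibniz, Derivation.leibniz_pow, h.ev0, Jc]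

lemma ev_W (h : Chart R Y) (u w : Fin 5 → A) :
    R.ev (W (Pw Y) u w) = R.ev (u 0) * R.ev (w 0) + R.ev (u 1) * R.ev (w 1)
      + R.ev (u 2) * R.ev (w 2) + R.ev (u 3) * R.ev (w 3) + R.ev (u 4) * R.ev (w 4) := by
  unfold W
  rw [Fin.sum_univ_five]
  simp [Pw, h.ev0]

lemma fr_isFrame (h : Chart R Y) : IsFrame (fr R Y) := by
  refine ⟨?_, ?_, ?_⟩
  · intro k hk
    have h0 := congrFun hk 0
    have h1 := congrFun hk 1
    have h2 := congrFun hk 2
    have h3 := congrFun hk 3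
    simp [fr, Jc] at h0 h1 h2 h3
    have hdet := (Matrix.isUnit_iff_isUnit_det _).1 h.inv
    have : (Matrix.of (fun k a : Fin 4 => R.ev (R.d k (Y a)))).det = 0 := by
      apply Matrix.det_eq_zero_of_row_eq_zero k
      intro j
      fin_cases j <;> simp [h0, h1, h2, h3]
    rw [this] at hdet
    simp at hdet
  · intro k
    simp [fr]
  · intro k l hkl
    have h1 := h.orth k l hkl
    have h2 := ev_W h (Dv R k (Yv Y)) (Dv R l (Yv Y))
    rw [h1, map_zero] at h2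
    simp only [Dv, Yv, Matrix.cons_val] at h2
    rw [ev_dphi h, ev_dphi h] at h2
    simp only [fr, Jc, Matrix.cons_val] at *
    linear_combination -h2

/-- the five basis vectors -/
def Bs (R : DRing A) (Y : Fin 4 → A) : Fin 5 → Fin 5 → A :=
  ![Dv R 0 (Yv Y), Dv R 1 (Yv Y), Dv R 2 (Yv Y), Dv R 3 (Yv Y), nn]

lemma Bs_orth (h : Chart R Y) : ∀ i j, i ≠ j → W (Pw Y) (Bs R Y i) (Bs R Y j) = 0 := by
  have o := h.orth
  have n : ∀ k, W (Pw Y) nn (Dv R k (Yv Y)) = 0 := fun k => W_nn k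
  have n' : ∀ k, W (Pw Y) (Dv R k (Yv Y)) nn = 0 := fun k => by rw [W_symm]; exact n k
  intro i j hij
  fin_cases i <;> fin_cases j <;> simp [Bs] at hij ⊢
  all_goals first
    | exact o _ _ (by decide)
    | exact n _
    | exact n' _

lemma Bs_unit (h : Chart R Y) : ∀ i, IsUnit (W (Pw Y) (Bs R Y i) (Bs R Y i)) := by
  have key : ∀ k, IsUnit (W (Pw Y) (Dv R k (Yv Y)) (Dv R k (Yv Y))) := by
    intro k
    apply R.unit
    have h2 := ev_W h (Dv R k (Yv Y)) (Dv R k (Yv Y))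
    rw [h2]
    simp only [Dv, Yv, Matrix.cons_val]
    rw [ev_dphi h]
    have h3 := dot_self_pos ((fr_isFrame h).ne k)
    simp only [dot, fr, Matrix.cons_val] at h3
    unfold Jc at *
    nlinarith [h3]
  intro i
  fin_cases i
  · exact key 0
  · exact key 1
  · exact key 2
  · exact key 3
  · change IsUnit (W (Pw Y) nn nn)
    apply R.unit
    rw [ev_W h]
    simp [nn]
    norm_num

/-- the quadratic terms are in `I²` -/
lemma quad_mem (h : Chart R Y) {k l m n : Fin 4} (hkl : k ≠ l) (hkm : k ≠ m) (hkn : k ≠ n)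
    (hlm : l ≠ m) (hln : l ≠ n) (hmn : m ≠ n) :
    W (Pw Y) (Dv R k (Dv R n (Yv Y))) (Dv R l (Dv R m (Yv Y))) ∈ R.I ^ 2 := by
  have hu := Bs_unit h
  choose N' hN' using fun i => (hu i).exists_left_inv
  rw [parseval (Pw Y) (Bs R Y) (Bs_orth h) N' hN']
  have key : ∀ p : Fin 4, N' p.castSucc *
      W (Pw Y) (Dv R k (Dv R n (Yv Y))) (Dv R p (Yv Y)) *
      W (Pw Y) (Dv R l (Dv R m (Yv Y))) (Dv R p (Yv Y)) ∈ R.I ^ 2 := by
    intro p
    by_cases hp : p = k ∨ p = n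
    · -- p ∉ {l, m}
      have hpl : p ≠ l := by rcases hp with rfl | rfl <;> [exact hkl; exact hln.symm]
      have hpm : p ≠ m := by rcases hp with rfl | rfl <;> [exact hkm; exact hmn.symm]
      have := dupin_mem h hpl hpm hlm
      rw [W_symm] at this
      exact Ideal.mul_mem_left _ _ this
    · push Not at hp
      have := dupin_mem h hp.1 hp.2 hkn
      rw [W_symm] at this
      exact Ideal.mul_mem_right _ _ (Ideal.mul_mem_left _ _ this)
  rw [Fin.sum_univ_five]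
  refine Ideal.add_mem _ (Ideal.add_mem _ (Ideal.add_mem _ (Ideal.add_mem _ ?_ ?_) ?_) ?_) ?_
  · exact key 0
  · exact key 1
  · exact key 2
  · exact key 3
  · exact Ideal.mul_mem_left _ _ (W_nn2 h _ _)

/-- `D(kl;mn) = ∑_a (∂_m ∂_n P_a) Y^a_k Y^a_l` -/
def DD (R : DRing A) (Y : Fin 4 → A) (k l m n : Fin 4) : A :=
  W (fun a => R.d m (R.d n (Pw Y a))) (Dv R k (Yv Y)) (Dv R l (Yv Y))

lemma DD_symm (k l m n : Fin 4) : DD R Y k l m n = DD R Y l k m n := W_symm _ _ _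

lemma DD_symm2 (k l m n : Fin 4) : DD R Y k l m n = DD R Y k l n m := by
  unfold DD
  congr 1
  funext a
  exact R.comm m n _

lemma dC_mem (h : Chart R Y) (k l m n : Fin 4) :
    R.d n (W (fun a => R.d m (Pw Y a)) (Dv R k (Yv Y)) (Dv R l (Yv Y))) - DD R Y k l n m
      ∈ R.I ^ 2 := by
  rw [d_W]
  have e : W (fun a => R.d n (R.d m (Pw Y a))) (Dv R k (Yv Y)) (Dv R l (Yv Y)) = DD R Y k l n m :=
    rfl
  rw [e]
  have h1 := C_mem h m (fun a => R.d n (Dv R k (Yv Y) a)) (Dv R l (Yv Y))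
  have h2 := C_mem h m (Dv R k (Yv Y)) (fun a => R.d n (Dv R l (Yv Y) a))
  have := Ideal.add_mem _ h1 h2
  convert this using 1
  ring

/-- the curvature identity modulo `I²` -/
lemma curv_mem (h : Chart R Y) {k l m n : Fin 4} (hkl : k ≠ l) (hkm : k ≠ m) (hkn : k ≠ n)
    (hlm : l ≠ m) (hln : l ≠ n) (hmn : m ≠ n) :
    DD R Y k l m n + DD R Y m n k l - DD R Y l m k n - DD R Y k n l m ∈ R.I ^ 2 := by
  -- derivative of `⟨Y_k, Y_lm⟩` in direction `n`, of `⟨Y_k, Y_nm⟩` in direction `l`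
  set S1 := W (Pw Y) (Dv R k (Yv Y)) (Dv R l (Dv R m (Yv Y))) with hS1
  set S2 := W (Pw Y) (Dv R k (Yv Y)) (Dv R n (Dv R m (Yv Y))) with hS2
  have a1 := d_W (R.d n) (Pw Y) (Dv R k (Yv Y)) (Dv R l (Dv R m (Yv Y)))
  have a2 := d_W (R.d l) (Pw Y) (Dv R k (Yv Y)) (Dv R n (Dv R m (Yv Y)))
  have c1 : (fun a => R.d n (Dv R l (Dv R m (Yv Y)) a)) = (fun a => R.d l (Dv R n (Dv R m (Yv Y)) a)) :=
    Dv_comm R n l _
  have q1 : W (Pw Y) (fun a => R.d n (Dv R k (Yv Y) a)) (Dv R l (Dv R m (Yv Y))) ∈ R.I ^ 2 := by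
    have := quad_mem h hkl hkm hkn hlm hln hmn
    have e : (fun a => R.d n (Dv R k (Yv Y) a)) = Dv R k (Dv R n (Yv Y)) := Dv_comm R n k _
    rw [e]
    exact this
  have q2 : W (Pw Y) (fun a => R.d l (Dv R k (Yv Y) a)) (Dv R n (Dv R m (Yv Y))) ∈ R.I ^ 2 := by
    have := quad_mem h hkn hkm hkl hmn.symm hln.symm hlm.symm
    have e : (fun a => R.d l (Dv R k (Yv Y) a)) = Dv R k (Dv R l (Yv Y)) := Dv_comm R l k _
    rw [e]
    exact this
  have p1 := C_mem h n (Dv R k (Yv Y)) (Dv R l (Dv R m (Yv Y)))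
  have p2 := C_mem h l (Dv R k (Yv Y)) (Dv R n (Dv R m (Yv Y)))
  have hdiff : R.d n S1 - R.d l S2 ∈ R.I ^ 2 := by
    rw [hS1, hS2, a1, a2, c1]
    have := Ideal.sub_mem _ (Ideal.add_mem _ p1 q1) (Ideal.add_mem _ p2 q2)
    convert this using 1
    ring
  -- Dupin expressions
  have d1 := dupin h hkl hkm hlm
  have d2 := dupin h hkn hkm hmn.symm
  have d1' := congrArg (R.d n) d1
  have d2' := congrArg (R.d l) d2
  have h2n : ∀ i : Fin 4, R.d i (2 : A) = 0 := fun i => by exact_mod_cast (R.d i).map_natCast 2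
  simp only [Derivation.leibniz, smul_eq_mul, map_add, map_sub, map_neg, h2n, mul_zero,
    add_zero] at d1' d2'
  rw [← hS1] at d1'
  rw [← hS2] at d2'
  have t1 := dC_mem h k l m n
  have t2 := dC_mem h k m l n
  have t3 := dC_mem h l m k n
  have t4 := dC_mem h k n m l
  have t5 := dC_mem h k m n l
  have t6 := dC_mem h n m k l
  have s1 : DD R Y k l n m = DD R Y k l m n := DD_symm2 _ _ _ _
  have s2 : DD R Y k m n l = DD R Y k m l n := DD_symm2 _ _ _ _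
  have s3 : DD R Y l m n k = DD R Y l m k n := DD_symm2 _ _ _ _
  have s4 : DD R Y n m l k = DD R Y m n k l := by rw [DD_symm2, DD_symm]
  rw [s1] at t1
  rw [s2] at t2
  rw [s3] at t3
  rw [s4] at t6
  have hfin : 2 * (R.d n S1 - R.d l S2) ∈ R.I ^ 2 := Ideal.mul_mem_left _ _ hdiff
  have hcomb := Ideal.add_mem _ (Ideal.sub_mem _ (Ideal.sub_mem _ t3 t1) t2)
    (Ideal.sub_mem _ (Ideal.add_mem _ t4 t5) t6)
  have := Ideal.sub_mem _ hcomb hfin
  convert this using 1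
  linear_combination d1' - d2'

lemma ev_dm_dn_P (h : Chart R Y) (m n : Fin 4) (a : Fin 5) : R.ev (R.d m (R.d n (Pw Y a))) = 0 :=
  ev_d_mem R m (dP_mem R h.ev0 n a)

lemma ev_d3_P0 (h : Chart R Y) (r m n : Fin 4) :
    R.ev (R.d r (R.d m (R.d n (Pw Y 0)))) =
      6 * (Jc R Y r 0 * Jc R Y m 0 * Jc R Y n 1 + Jc R Y r 0 * Jc R Y m 1 * Jc R Y n 0
        + Jc R Y r 1 * Jc R Y m 0 * Jc R Y n 0) + 6 * (Jc R Y r 3 * Jc R Y m 3 * Jc R Y n 3) := by
  have h3 : ∀ k, R.d k (3 : A) = 0 := fun k => by exact_mod_cast (R.d k).map_natCast 3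
  have h2 : ∀ k, R.d k (2 : A) = 0 := fun k => by exact_mod_cast (R.d k).map_natCast 2
  have e3 : R.ev 3 = 3 := map_ofNat _ _
  have e2 : R.ev 2 = 2 := map_ofNat _ _
  simp [Pw, Derivation.leibniz, Derivation.leibniz_pow, h.ev0, h3, h2, e3, e2, Jc]
  ring

lemma ev_d3_P1 (h : Chart R Y) (r m n : Fin 4) :
    R.ev (R.d r (R.d m (R.d n (Pw Y 1)))) =
      6 * (Jc R Y r 1 * Jc R Y m 1 * Jc R Y n 2 + Jc R Y r 1 * Jc R Y m 2 * Jc R Y n 1
        + Jc R Y r 2 * Jc R Y m 1 * Jc R Y n 1) + 6 * (Jc R Y r 0 * Jc R Y m 0 * Jc R Y n 0) := by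
  have h3 : ∀ k, R.d k (3 : A) = 0 := fun k => by exact_mod_cast (R.d k).map_natCast 3
  have h2 : ∀ k, R.d k (2 : A) = 0 := fun k => by exact_mod_cast (R.d k).map_natCast 2
  have e3 : R.ev 3 = 3 := map_ofNat _ _
  have e2 : R.ev 2 = 2 := map_ofNat _ _
  simp [Pw, Derivation.leibniz, Derivation.leibniz_pow, h.ev0, h3, h2, e3, e2, Jc]
  ring

lemma ev_d3_P2 (h : Chart R Y) (r m n : Fin 4) :
    R.ev (R.d r (R.d m (R.d n (Pw Y 2)))) =
      6 * (Jc R Y r 2 * Jc R Y m 2 * Jc R Y n 3 + Jc R Y r 2 * Jc R Y m 3 * Jc R Y n 2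
        + Jc R Y r 3 * Jc R Y m 2 * Jc R Y n 2) + 6 * (Jc R Y r 1 * Jc R Y m 1 * Jc R Y n 1) := by
  have h3 : ∀ k, R.d k (3 : A) = 0 := fun k => by exact_mod_cast (R.d k).map_natCast 3
  have h2 : ∀ k, R.d k (2 : A) = 0 := fun k => by exact_mod_cast (R.d k).map_natCast 2
  have e3 : R.ev 3 = 3 := map_ofNat _ _
  have e2 : R.ev 2 = 2 := map_ofNat _ _
  simp [Pw, Derivation.leibniz, Derivation.leibniz_pow, h.ev0, h3, h2, e3, e2, Jc]
  ring

lemma ev_d3_P3 (h : Chart R Y) (r m n : Fin 4) :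
    R.ev (R.d r (R.d m (R.d n (Pw Y 3)))) =
      6 * (Jc R Y r 3 * Jc R Y m 3 * Jc R Y n 0 + Jc R Y r 3 * Jc R Y m 0 * Jc R Y n 3
        + Jc R Y r 0 * Jc R Y m 3 * Jc R Y n 3) + 6 * (Jc R Y r 2 * Jc R Y m 2 * Jc R Y n 2) := by
  have h3 : ∀ k, R.d k (3 : A) = 0 := fun k => by exact_mod_cast (R.d k).map_natCast 3
  have h2 : ∀ k, R.d k (2 : A) = 0 := fun k => by exact_mod_cast (R.d k).map_natCast 2
  have e3 : R.ev 3 = 3 := map_ofNat _ _
  have e2 : R.ev 2 = 2 := map_ofNat _ _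
  simp [Pw, Derivation.leibniz, Derivation.leibniz_pow, h.ev0, h3, h2, e3, e2, Jc]
  ring

lemma ev_d3_P4 (r m n : Fin 4) :
    R.ev (R.d r (R.d m (R.d n (Pw Y 4)))) = 0 := by
  simp [Pw]

/-- derivative of `DD` at the point -/
lemma ev_dDD (h : Chart R Y) (r k l m n : Fin 4) :
    R.ev (R.d r (DD R Y k l m n)) =
      R.ev (R.d r (R.d m (R.d n (Pw Y 0)))) * Jc R Y k 0 * Jc R Y l 0
      + R.ev (R.d r (R.d m (R.d n (Pw Y 1)))) * Jc R Y k 1 * Jc R Y l 1
      + R.ev (R.d r (R.d m (R.d n (Pw Y 2)))) * Jc R Y k 2 * Jc R Y l 2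
      + R.ev (R.d r (R.d m (R.d n (Pw Y 3)))) * Jc R Y k 3 * Jc R Y l 3 := by
  unfold DD
  rw [d_W, map_add, map_add]
  have z : ∀ u w : Fin 5 → A, R.ev (W (fun a => R.d m (R.d n (Pw Y a))) u w) = 0 := by
    intro u w
    unfold W
    rw [map_sum]
    refine Finset.sum_eq_zero (fun a _ => ?_)
    rw [map_mul, map_mul, ev_dm_dn_P h]
    ring
  rw [z, z, add_zero, add_zero]
  unfold W
  rw [Fin.sum_univ_five]
  simp only [map_add, map_mul, ev_d3_P4, zero_mul, add_zero, Dv, Yv, Matrix.cons_val, Jc]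

/-- coefficient vector of the identity -/
lemma extract (h : Chart R Y) {k l m n : Fin 4} (hkl : k ≠ l) (hkm : k ≠ m) (hkn : k ≠ n)
    (hlm : l ≠ m) (hln : l ≠ n) (hmn : m ≠ n) :
    mnr (fr R Y) 0 1 k m * mnr (fr R Y) 0 1 l n = 0 ∧
    mnr (fr R Y) 1 2 k m * mnr (fr R Y) 1 2 l n = 0 ∧
    mnr (fr R Y) 2 3 k m * mnr (fr R Y) 2 3 l n = 0 ∧
    mnr (fr R Y) 3 0 k m * mnr (fr R Y) 3 0 l n = 0 := by
  have hc := curv_mem h hkl hkm hkn hlm hln hmn
  have hr : ∀ r, R.ev (R.d r (DD R Y k l m n + DD R Y m n k l - DD R Y l m k n - DD R Y k n l m))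
      = 0 := fun r => ev_d_mem R r hc
  simp only [map_add, map_sub, ev_dDD h, ev_d3_P0 h, ev_d3_P1 h, ev_d3_P2 h, ev_d3_P3 h] at hr
  set X : Fin 4 → ℝ := ![
    6 * (mnr (fr R Y) 0 1 k m * mnr (fr R Y) 0 1 l n),
    6 * (mnr (fr R Y) 1 2 k m * mnr (fr R Y) 1 2 l n),
    6 * (mnr (fr R Y) 2 3 k m * mnr (fr R Y) 2 3 l n),
    6 * (mnr (fr R Y) 3 0 k m * mnr (fr R Y) 3 0 l n)] with hX
  have hmul : (Matrix.of (fun k a : Fin 4 => R.ev (R.d k (Y a)))).mulVec X = 0 := by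
    funext r
    simp only [Matrix.mulVec, dotProduct, Fin.sum_univ_four, Matrix.of_apply, hX,
      Matrix.cons_val, Pi.zero_apply]
    have := hr r
    simp only [mnr, fr, Matrix.cons_val]
    unfold Jc at this ⊢
    linear_combination this
  have hdet := (Matrix.isUnit_iff_isUnit_det _).1 h.inv
  have hX0 := Matrix.eq_zero_of_mulVec_eq_zero hdet.ne_zero hmul
  have e0 := congrFun hX0 0
  have e1 := congrFun hX0 1
  have e2 := congrFun hX0 2
  have e3 := congrFun hX0 3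
  simp only [hX, Matrix.cons_val, Pi.zero_apply] at e0 e1 e2 e3
  refine ⟨?_, ?_, ?_, ?_⟩ <;> linarith

/-- Algebraic core: there is no orthogonal chart. -/
theorem no_chart (h : Chart R Y) : False := by
  have hF := fr_isFrame h
  have a1 := extract h (k := 0) (l := 2) (m := 1) (n := 3) (by decide) (by decide) (by decide)
    (by decide) (by decide) (by decide)
  have a2 := extract h (k := 0) (l := 1) (m := 2) (n := 3) (by decide) (by decide) (by decide)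
    (by decide) (by decide) (by decide)
  have a3 := extract h (k := 0) (l := 1) (m := 3) (n := 2) (by decide) (by decide) (by decide)
    (by decide) (by decide) (by decide)
  apply no_frame hF
  intro ab hab
  simp only [List.mem_cons, List.not_mem_nil, or_false] at hab
  rcases hab with rfl | rfl | rfl | rfl
  · exact ⟨a1.1, a2.1, a3.1⟩
  · exact ⟨a1.2.1, a2.2.1, a3.2.1⟩
  · exact ⟨a1.2.2.1, a2.2.2.1, a3.2.2.1⟩
  · exact ⟨a1.2.2.2, a2.2.2.2, a3.2.2.2⟩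

end core

end Pool.Agent.LibOrth
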