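import Pool.Agent.LibOrth.Frame

set_option autoImplicit false

namespace Pool.Agent.LibOrth

def dot (x y : Fin 5 → ℝ) : ℝ := x 0 * y 0 + x 1 * y 1 + x 2 * y 2 + x 3 * y 3 + x 4 * y 4

lemma dot_self_pos {x : Fin 5 → ℝ} (h : x ≠ 0) : 0 < dot x x := by
  have h1 := ne_zero_cases h
  by_contra hc
  apply h1
  unfold dot at hc
  push Not at hc
  have e0 := mul_self_nonneg (x 0)
  have e1 := mul_self_nonneg (x 1)
  have e2 := mul_self_nonneg (x 2)
  have e3 := mul_self_nonneg (x 3)
  have e4 := mul_self_nonneg (x 4)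
  refine ⟨?_, ?_, ?_, ?_, ?_⟩ <;> (apply mul_self_eq_zero.1; linarith)

lemma expand {f : Fin 4 → Fin 5 → ℝ} (h : IsFrame f) (w : Fin 5 → ℝ) (a : Fin 5) :
    w a = dot w (f 0) / dot (f 0) (f 0) * f 0 a + dot w (f 1) / dot (f 1) (f 1) * f 1 a
      + dot w (f 2) / dot (f 2) (f 2) * f 2 a + dot w (f 3) / dot (f 3) (f 3) * f 3 a
      + (w 0 + w 1 + w 2 + w 3 + w 4) / 5 := by
  set B : Matrix (Fin 5) (Fin 5) ℝ := Matrix.of ![f 0, f 1, f 2, f 3, fun _ => 1] with hB
  set N : Fin 5 → ℝ := ![dot (f 0) (f 0), dot (f 1) (f 1), dot (f 2) (f 2), dot (f 3) (f 3), 5]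
    with hN
  have hNne : ∀ i, N i ≠ 0 := by
    intro i
    fin_cases i <;> simp [hN]
    · exact (dot_self_pos (h.ne 0)).ne'
    · exact (dot_self_pos (h.ne 1)).ne'
    · exact (dot_self_pos (h.ne 2)).ne'
    · exact (dot_self_pos (h.ne 3)).ne'
  have hBB : B * B.transpose = Matrix.diagonal N := by
    ext i j
    rw [Matrix.mul_apply, Fin.sum_univ_five]
    have s0 := h.sum 0
    have s1 := h.sum 1
    have s2 := h.sum 2
    have s3 := h.sum 3
    fin_cases i <;> fin_cases j <;>
      simp only [hB, hN, Matrix.of_apply, Matrix.transpose_apply, Matrix.diagonal_apply, dot] <;>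
      simp
    all_goals first
      | (exact h.orth _ _ (by decide))
      | linarith
  have hinv : (Matrix.diagonal (fun i => (N i)⁻¹) * B) * B.transpose = 1 := by
    rw [Matrix.mul_assoc, hBB, Matrix.diagonal_mul_diagonal]
    ext i j
    by_cases hij : i = j
    · subst hij
      simp [hNne i]
    · simp [hij]
  have hinv2 : B.transpose * (Matrix.diagonal (fun i => (N i)⁻¹) * B) = 1 :=
    mul_eq_one_comm.1 hinv
  have hw : (B.transpose * (Matrix.diagonal (fun i => (N i)⁻¹) * B)).mulVec w a = w a := by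
    rw [hinv2, Matrix.one_mulVec]
  rw [← hw, ← Matrix.mulVec_mulVec, ← Matrix.mulVec_mulVec]
  simp only [Matrix.mulVec, dotProduct, Fin.sum_univ_five, Matrix.transpose_apply,
    Matrix.diagonal_apply]
  simp [hB, hN, dot]
  ring

/-- minors -/
def mnr (f : Fin 4 → Fin 5 → ℝ) (a b : Fin 5) (k l : Fin 4) : ℝ :=
  f k a * f l b - f k b * f l a

/-- the vector `α E_a + β E_b` -/
def ev2 (a b : Fin 5) (α β : ℝ) : Fin 5 → ℝ :=
  fun c => (if c = a then α else 0) + (if c = b then β else 0)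

lemma dot_ev2 (a b : Fin 5) (α β : ℝ) (x : Fin 5 → ℝ) :
    dot (ev2 a b α β) x = α * x a + β * x b := by
  unfold dot ev2
  have h : ∀ (a : Fin 5) (α : ℝ), (if (0 : Fin 5) = a then α else 0) * x 0
      + (if (1 : Fin 5) = a then α else 0) * x 1 + (if (2 : Fin 5) = a then α else 0) * x 2
      + (if (3 : Fin 5) = a then α else 0) * x 3 + (if (4 : Fin 5) = a then α else 0) * x 4
      = α * x a := by
    intro a α
    fin_cases a <;> simp
  have h1 := h a α
  have h2 := h b β
  linear_combination h1 + h2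

lemma sum_ev2 (a b : Fin 5) (α β : ℝ) :
    ev2 a b α β 0 + ev2 a b α β 1 + ev2 a b α β 2 + ev2 a b α β 3 + ev2 a b α β 4 = α + β := by
  have := dot_ev2 a b α β (fun _ => 1)
  simpa [dot] using this

/-- no relation `α f_k a + β f_k b = 0` for all `k` -/
lemma rank_two {f : Fin 4 → Fin 5 → ℝ} (h : IsFrame f) {a b : Fin 5} (hab : a ≠ b) {α β : ℝ}
    (hk : ∀ k, α * f k a + β * f k b = 0) : α = 0 ∧ β = 0 := by
  have hd : ∀ k, dot (ev2 a b α β) (f k) = 0 := fun k => by rw [dot_ev2]; exact hk k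
  have hex := fun c => expand h (ev2 a b α β) c
  simp only [hd, sum_ev2, zero_div, zero_mul, add_zero, zero_add] at hex
  -- pick c different from a, b
  obtain ⟨c, hca, hcb⟩ : ∃ c : Fin 5, c ≠ a ∧ c ≠ b :=
    (by decide : ∀ a b : Fin 5, ∃ c : Fin 5, c ≠ a ∧ c ≠ b) a b
  have hc := hex c
  have ha := hex a
  have hb := hex b
  simp [ev2, hca, hcb] at hc
  simp [ev2, hab] at ha
  simp [ev2, hab.symm] at hb
  constructor <;> linarith

lemma star_case {f : Fin 4 → Fin 5 → ℝ} (h : IsFrame f) {a b : Fin 5} (hab : a ≠ b) (i : Fin 4)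
    (hz : ∀ k, mnr f a b i k = 0) : f i a = 0 ∧ f i b = 0 := by
  have := rank_two h hab (α := f i b) (β := - f i a) (fun k => by
    have := hz k
    unfold mnr at this
    linarith)
  exact ⟨by linarith [this.2], this.1⟩

lemma tri_case {f : Fin 4 → Fin 5 → ℝ} (h : IsFrame f) {a b : Fin 5} (hab : a ≠ b) (l : Fin 4)
    (hz : ∀ i k, i ≠ l → k ≠ l → mnr f a b i k = 0) :
    ∀ c d : Fin 5, c ≠ a → c ≠ b → d ≠ a → d ≠ b → f l c = f l d := by
  -- a relation
  obtain ⟨α, β, hne, hrel⟩ : ∃ α β : ℝ, ¬ (α = 0 ∧ β = 0) ∧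
      ∀ k, k ≠ l → α * f k a + β * f k b = 0 := by
    by_cases hall : ∀ k, k ≠ l → f k a = 0 ∧ f k b = 0
    · exact ⟨1, 0, by simp, fun k hk => by simp [(hall k hk).1]⟩
    · push Not at hall
      obtain ⟨i, hi, hne⟩ := hall
      refine ⟨f i b, - f i a, ?_, ?_⟩
      · rintro ⟨h1, h2⟩
        exact hne (by linarith) h1
      · intro k hk
        have := hz i k hi hk
        unfold mnr at this
        linarith
  have hd : ∀ k, k ≠ l → dot (ev2 a b α β) (f k) = 0 := fun k hkl => by
    rw [dot_ev2]; exact hrel k hkl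
  have hex := fun c => expand h (ev2 a b α β) c
  have hex2 : ∀ c, ev2 a b α β c = dot (ev2 a b α β) (f l) / dot (f l) (f l) * f l c
      + (α + β) / 5 := by
    intro c
    have h1 := hex c
    rw [sum_ev2] at h1
    have key : ∀ m : Fin 4, m ≠ l → dot (ev2 a b α β) (f m) / dot (f m) (f m) * f m c = 0 := by
      intro m hm
      rw [hd m hm]
      simp
    fin_cases l
    · have k1 := key 1 (by decide)
      have k2 := key 2 (by decide)
      have k3 := key 3 (by decide)
      simp only [Fin.zero_eta] at *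
      linarith
    · have k1 := key 0 (by decide)
      have k2 := key 2 (by decide)
      have k3 := key 3 (by decide)
      simp only [Fin.mk_one] at *
      linarith
    · have k1 := key 0 (by decide)
      have k2 := key 1 (by decide)
      have k3 := key 3 (by decide)
      simp only [Fin.reduceFinMk] at *
      linarith
    · have k1 := key 0 (by decide)
      have k2 := key 1 (by decide)
      have k3 := key 2 (by decide)
      simp only [Fin.reduceFinMk] at *
      linarith
  intro c d hca hcb hda hdb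
  have hc := hex2 c
  have hdd := hex2 d
  have ha := hex2 a
  have hb := hex2 b
  set t := dot (ev2 a b α β) (f l) / dot (f l) (f l) with ht
  simp [ev2, hca, hcb] at hc
  simp [ev2, hda, hdb] at hdd
  simp [ev2, hab] at ha
  simp [ev2, hab.symm] at hb
  have htne : t ≠ 0 := by
    intro h0
    apply hne
    rw [h0] at ha hb hc
    constructor <;> linarith
  have : t * (f l c - f l d) = 0 := by linarith
  rcases mul_eq_zero.1 this with h1 | h1
  · exact absurd h1 htne
  · linarith

lemma mnr_symm (f : Fin 4 → Fin 5 → ℝ) (a b : Fin 5) (k l : Fin 4) :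
    mnr f a b k l = - mnr f a b l k := by
  unfold mnr; ring

lemma mnr_self (f : Fin 4 → Fin 5 → ℝ) (a b : Fin 5) (k : Fin 4) :
    mnr f a b k k = 0 := by
  unfold mnr; ring

theorem cover_of_minors {f : Fin 4 → Fin 5 → ℝ} (h : IsFrame f) {a b : Fin 5} (hab : a ≠ b)
    (h1 : mnr f a b 0 1 * mnr f a b 2 3 = 0) (h2 : mnr f a b 0 2 * mnr f a b 1 3 = 0)
    (h3 : mnr f a b 0 3 * mnr f a b 1 2 = 0) : ∃ i, Cov a b (f i) := by
  have star : ∀ i, (∀ k, mnr f a b i k = 0) → ∃ i, Cov a b (f i) :=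
    fun i hi => ⟨i, Or.inl (star_case h hab i hi)⟩
  have tri : ∀ l, (∀ i k, i ≠ l → k ≠ l → mnr f a b i k = 0) → ∃ i, Cov a b (f i) :=
    fun l hl => ⟨l, Or.inr (tri_case h hab l hl)⟩
  have hs := mnr_symm f a b
  have hself := mnr_self f a b
  rcases mul_eq_zero.1 h1 with e1 | e1 <;> rcases mul_eq_zero.1 h2 with e2 | e2 <;>
    rcases mul_eq_zero.1 h3 with e3 | e3
  · -- 01,02,03
    apply star 0
    intro k; fin_cases k <;> simp [hself, e1, e2, e3]
  · -- 01,02,12
    apply tri 3
    intro i k hi hk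
    have r0 : mnr f a b 1 0 = 0 := by rw [hs, e1, neg_zero]
    have r1 : mnr f a b 2 0 = 0 := by rw [hs, e2, neg_zero]
    have r2 : mnr f a b 2 1 = 0 := by rw [hs, e3, neg_zero]
    clear hs star tri
    fin_cases i <;> fin_cases k <;> simp_all
  · -- 01, 13, 03
    apply tri 2
    intro i k hi hk
    have r0 : mnr f a b 1 0 = 0 := by rw [hs, e1, neg_zero]
    have r1 : mnr f a b 3 1 = 0 := by rw [hs, e2, neg_zero]
    have r2 : mnr f a b 3 0 = 0 := by rw [hs, e3, neg_zero]
    clear hs star tri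
    fin_cases i <;> fin_cases k <;> simp_all
  · -- 01, 13, 12
    apply star 1
    intro k; fin_cases k <;> simp [hself, e2, e3]
    rw [hs]; simp [e1]
  · -- 23, 02, 03
    apply tri 1
    intro i k hi hk
    have r0 : mnr f a b 3 2 = 0 := by rw [hs, e1, neg_zero]
    have r1 : mnr f a b 2 0 = 0 := by rw [hs, e2, neg_zero]
    have r2 : mnr f a b 3 0 = 0 := by rw [hs, e3, neg_zero]
    clear hs star tri
    fin_cases i <;> fin_cases k <;> simp_all
  · -- 23, 02, 12
    apply star 2
    intro k; fin_cases k <;> simp [hself, e1]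
    · rw [hs]; simp [e2]
    · rw [hs]; simp [e3]
  · -- 23,13,03
    apply star 3
    intro k; fin_cases k <;> simp [hself]
    · rw [hs]; simp [e3]
    · rw [hs]; simp [e2]
    · rw [hs]; simp [e1]
  · -- 23,13,12
    apply tri 0
    intro i k hi hk
    have r0 : mnr f a b 3 2 = 0 := by rw [hs, e1, neg_zero]
    have r1 : mnr f a b 3 1 = 0 := by rw [hs, e2, neg_zero]
    have r2 : mnr f a b 2 1 = 0 := by rw [hs, e3, neg_zero]
    clear hs star tri
    fin_cases i <;> fin_cases k <;> simp_all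

/-- The linear algebra contradiction. -/
theorem no_frame {f : Fin 4 → Fin 5 → ℝ} (h : IsFrame f)
    (hm : ∀ ab ∈ ([(0, 1), (1, 2), (2, 3), (3, 0)] : List (Fin 5 × Fin 5)),
      mnr f ab.1 ab.2 0 1 * mnr f ab.1 ab.2 2 3 = 0 ∧
      mnr f ab.1 ab.2 0 2 * mnr f ab.1 ab.2 1 3 = 0 ∧
      mnr f ab.1 ab.2 0 3 * mnr f ab.1 ab.2 1 2 = 0) : False := by
  have m1 := hm (0, 1) (by simp)
  have m2 := hm (1, 2) (by simp)
  have m3 := hm (2, 3) (by simp)
  have m4 := hm (3, 0) (by simp)
  exact not_good (f := f) ⟨h, cover_of_minors h (by decide) m1.1 m1.2.1 m1.2.2,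
    cover_of_minors h (by decide) m2.1 m2.2.1 m2.2.2,
    cover_of_minors h (by decide) m3.1 m3.2.1 m3.2.2,
    cover_of_minors h (by decide) m4.1 m4.2.1 m4.2.2⟩

end Pool.Agent.LibOrth
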