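import Mathlib

set_option autoImplicit false

namespace Pool.Agent.LibOrth

/-- `x` covers the pair `{a,b}`: either `x a = x b = 0` or `x` is constant off `{a,b}`. -/
def Cov (a b : Fin 5) (x : Fin 5 → ℝ) : Prop :=
  (x a = 0 ∧ x b = 0) ∨ (∀ c d : Fin 5, c ≠ a → c ≠ b → d ≠ a → d ≠ b → x c = x d)

/-- An orthogonal frame of the zero-sum hyperplane in `ℝ⁵`. -/
structure IsFrame (f : Fin 4 → Fin 5 → ℝ) : Prop where
  ne : ∀ i, f i ≠ 0
  sum : ∀ i, f i 0 + f i 1 + f i 2 + f i 3 + f i 4 = 0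
  orth : ∀ i j, i ≠ j →
    f i 0 * f j 0 + f i 1 * f j 1 + f i 2 * f j 2 + f i 3 * f j 3 + f i 4 * f j 4 = 0

structure Good (f : Fin 4 → Fin 5 → ℝ) : Prop extends IsFrame f where
  c01 : ∃ i, Cov 0 1 (f i)
  c12 : ∃ i, Cov 1 2 (f i)
  c23 : ∃ i, Cov 2 3 (f i)
  c30 : ∃ i, Cov 3 0 (f i)

def rot (f : Fin 4 → Fin 5 → ℝ) : Fin 4 → Fin 5 → ℝ :=
  fun i => ![f i 1, f i 2, f i 3, f i 0, f i 4]

lemma cov01_iff (x : Fin 5 → ℝ) : Cov 0 1 x ↔ (x 0 = 0 ∧ x 1 = 0) ∨ (x 2 = x 3 ∧ x 3 = x 4) := by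
  unfold Cov
  refine or_congr Iff.rfl ⟨fun h => ⟨h 2 3 (by decide) (by decide) (by decide) (by decide),
    h 3 4 (by decide) (by decide) (by decide) (by decide)⟩, ?_⟩
  rintro ⟨h1, h2⟩ c d hc hc' hd hd'
  fin_cases c <;> fin_cases d <;> simp_all

lemma cov12_iff (x : Fin 5 → ℝ) : Cov 1 2 x ↔ (x 1 = 0 ∧ x 2 = 0) ∨ (x 0 = x 3 ∧ x 3 = x 4) := by
  unfold Cov
  refine or_congr Iff.rfl ⟨fun h => ⟨h 0 3 (by decide) (by decide) (by decide) (by decide),
    h 3 4 (by decide) (by decide) (by decide) (by decide)⟩, ?_⟩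
  rintro ⟨h1, h2⟩ c d hc hc' hd hd'
  fin_cases c <;> fin_cases d <;> simp_all

lemma cov23_iff (x : Fin 5 → ℝ) : Cov 2 3 x ↔ (x 2 = 0 ∧ x 3 = 0) ∨ (x 0 = x 1 ∧ x 1 = x 4) := by
  unfold Cov
  refine or_congr Iff.rfl ⟨fun h => ⟨h 0 1 (by decide) (by decide) (by decide) (by decide),
    h 1 4 (by decide) (by decide) (by decide) (by decide)⟩, ?_⟩
  rintro ⟨h1, h2⟩ c d hc hc' hd hd'
  fin_cases c <;> fin_cases d <;> simp_all

lemma cov30_iff (x : Fin 5 → ℝ) : Cov 3 0 x ↔ (x 3 = 0 ∧ x 0 = 0) ∨ (x 1 = x 2 ∧ x 2 = x 4) := by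
  unfold Cov
  refine or_congr Iff.rfl ⟨fun h => ⟨h 1 2 (by decide) (by decide) (by decide) (by decide),
    h 2 4 (by decide) (by decide) (by decide) (by decide)⟩, ?_⟩
  rintro ⟨h1, h2⟩ c d hc hc' hd hd'
  fin_cases c <;> fin_cases d <;> simp_all

lemma rot_good {f : Fin 4 → Fin 5 → ℝ} (h : Good f) : Good (rot f) := by
  refine ⟨⟨?_, ?_, ?_⟩, ?_, ?_, ?_, ?_⟩
  · intro i hi
    apply h.ne i
    have h0 := congrFun hi 0
    have h1 := congrFun hi 1
    have h2 := congrFun hi 2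
    have h3 := congrFun hi 3
    have h4 := congrFun hi 4
    simp [rot] at h0 h1 h2 h3 h4
    funext k
    fin_cases k <;> simp_all
  · intro i
    have := h.sum i
    simp [rot]
    linarith
  · intro i j hij
    have := h.orth i j hij
    simp [rot]
    linarith
  · obtain ⟨i, hi⟩ := h.c12
    refine ⟨i, ?_⟩
    rw [cov12_iff] at hi
    rw [cov01_iff]
    simp [rot]
    grind
  · obtain ⟨i, hi⟩ := h.c23
    refine ⟨i, ?_⟩
    rw [cov23_iff] at hi
    rw [cov12_iff]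
    simp [rot]
    grind
  · obtain ⟨i, hi⟩ := h.c30
    refine ⟨i, ?_⟩
    rw [cov30_iff] at hi
    rw [cov23_iff]
    simp [rot]
    grind
  · obtain ⟨i, hi⟩ := h.c01
    refine ⟨i, ?_⟩
    rw [cov01_iff] at hi
    rw [cov30_iff]
    simp [rot]
    grind

lemma ne_zero_cases {x : Fin 5 → ℝ} (h : x ≠ 0) :
    ¬ (x 0 = 0 ∧ x 1 = 0 ∧ x 2 = 0 ∧ x 3 = 0 ∧ x 4 = 0) := by
  rintro ⟨h0, h1, h2, h3, h4⟩
  apply h
  funext k
  fin_cases k <;> simp_all

/-- special vectors of the shape `(1,-4,1,1,1)` -/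
lemma S1 {f : Fin 4 → Fin 5 → ℝ} (h : Good f) (i : Fin 4) :
    ¬ (f i 0 = f i 2 ∧ f i 2 = f i 3 ∧ f i 3 = f i 4) := by
  rintro ⟨e1, e2, e3⟩
  have hs := h.sum i
  have hne := ne_zero_cases (h.ne i)
  have ht : f i 4 ≠ 0 := by
    intro h0
    apply hne
    refine ⟨?_, ?_, ?_, ?_, ?_⟩ <;> linarith
  have key : ∀ m, m ≠ i → f m 1 = 0 := by
    intro m hm
    have ho := h.orth m i hm
    have hsm := h.sum m
    have : f i 4 * f m 1 = 0 := by
      have e4 : f i 1 = -4 * f i 4 := by linarith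
      have e5 : f i 0 = f i 4 := by linarith
      have e6 : f i 2 = f i 4 := by linarith
      rw [e4, e5, e6, e3] at ho
      linear_combination (f i 4 / 5) * hsm - (1 / 5) * ho
    rcases mul_eq_zero.1 this with h1 | h1
    · exact absurd h1 ht
    · exact h1
  obtain ⟨k, hk⟩ := h.c23
  obtain ⟨l, hl⟩ := h.c30
  rw [cov23_iff] at hk
  rw [cov30_iff] at hl
  have hki : k ≠ i := by
    rintro rfl
    rcases hk with ⟨h1, h2⟩ | ⟨h1, h2⟩
    · apply ht; linarith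
    · apply ht; linarith
  have hli : l ≠ i := by
    rintro rfl
    rcases hl with ⟨h1, h2⟩ | ⟨h1, h2⟩
    · apply ht; linarith
    · apply ht; linarith
  have k1 := key k hki
  have l1 := key l hli
  have hsk := h.sum k
  have hsl := h.sum l
  have hnk := ne_zero_cases (h.ne k)
  have hnl := ne_zero_cases (h.ne l)
  by_cases hkl : k = l
  · subst hkl
    apply hnk
    grind
  · have ho := h.orth k l hkl
    rcases hk with ⟨a1, a2⟩ | ⟨a1, a2⟩ <;> rcases hl with ⟨b1, b2⟩ | ⟨b1, b2⟩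
    · grind
    · grind
    · grind
    · grind

/-- special vectors of the shape `(0,0,0,1,-1)` -/
lemma S2 {f : Fin 4 → Fin 5 → ℝ} (h : Good f) (i : Fin 4) :
    ¬ (f i 0 = 0 ∧ f i 1 = 0 ∧ f i 2 = 0) := by
  rintro ⟨e1, e2, e3⟩
  have hs := h.sum i
  have hne := ne_zero_cases (h.ne i)
  have ht : f i 4 ≠ 0 := by
    intro h0
    apply hne
    refine ⟨?_, ?_, ?_, ?_, ?_⟩ <;> linarith
  have key : ∀ m, m ≠ i → f m 3 = f m 4 := by
    intro m hm
    have ho := h.orth m i hm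
    have : f i 4 * (f m 3 - f m 4) = 0 := by
      have e4 : f i 3 = - f i 4 := by linarith
      rw [e1, e2, e3, e4] at ho
      linear_combination - ho
    rcases mul_eq_zero.1 this with h1 | h1
    · exact absurd h1 ht
    · linarith
  obtain ⟨k, hk⟩ := h.c23
  obtain ⟨l, hl⟩ := h.c30
  rw [cov23_iff] at hk
  rw [cov30_iff] at hl
  have hki : k ≠ i := by
    rintro rfl
    rcases hk with ⟨h1, h2⟩ | ⟨h1, h2⟩
    · apply ht; linarith
    · apply ht; linarith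
  have hli : l ≠ i := by
    rintro rfl
    rcases hl with ⟨h1, h2⟩ | ⟨h1, h2⟩
    · apply ht; linarith
    · apply ht; linarith
  have k1 := key k hki
  have l1 := key l hli
  have hsk := h.sum k
  have hsl := h.sum l
  have hnk := ne_zero_cases (h.ne k)
  have hnl := ne_zero_cases (h.ne l)
  by_cases hkl : k = l
  · subst hkl
    apply hnk
    grind
  · have ho := h.orth k l hkl
    rcases hk with ⟨a1, a2⟩ | ⟨a1, a2⟩ <;> rcases hl with ⟨b1, b2⟩ | ⟨b1, b2⟩
    · grind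
    · grind
    · grind
    · grind

/-- special vectors of the shape `(1,-1,0,0,0)` -/
lemma S3 {f : Fin 4 → Fin 5 → ℝ} (h : Good f) (i : Fin 4) :
    ¬ (f i 2 = 0 ∧ f i 3 = 0 ∧ f i 4 = 0) := by
  rintro ⟨e1, e2, e3⟩
  have hs := h.sum i
  have hne := ne_zero_cases (h.ne i)
  have ht : f i 0 ≠ 0 := by
    intro h0
    apply hne
    refine ⟨?_, ?_, ?_, ?_, ?_⟩ <;> linarith
  have key : ∀ m, m ≠ i → f m 0 = f m 1 := by
    intro m hm
    have ho := h.orth m i hm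
    have : f i 0 * (f m 0 - f m 1) = 0 := by
      have e4 : f i 1 = - f i 0 := by linarith
      rw [e1, e2, e3, e4] at ho
      linear_combination ho
    rcases mul_eq_zero.1 this with h1 | h1
    · exact absurd h1 ht
    · linarith
  obtain ⟨k, hk⟩ := h.c12
  obtain ⟨l, hl⟩ := h.c30
  rw [cov12_iff] at hk
  rw [cov30_iff] at hl
  have hki : k ≠ i := by
    rintro rfl
    rcases hk with ⟨h1, h2⟩ | ⟨h1, h2⟩
    · apply ht; linarith
    · apply ht; linarith
  have hli : l ≠ i := by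
    rintro rfl
    rcases hl with ⟨h1, h2⟩ | ⟨h1, h2⟩
    · apply ht; linarith
    · apply ht; linarith
  have k1 := key k hki
  have l1 := key l hli
  have hsk := h.sum k
  have hsl := h.sum l
  have hnk := ne_zero_cases (h.ne k)
  have hnl := ne_zero_cases (h.ne l)
  by_cases hkl : k = l
  · subst hkl
    apply hnk
    grind
  · have ho := h.orth k l hkl
    rcases hk with ⟨a1, a2⟩ | ⟨a1, a2⟩ <;> rcases hl with ⟨b1, b2⟩ | ⟨b1, b2⟩
    · grind
    · grind
    · grind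
    · grind

/-- type of cover of an adjacent pair must agree (pairs `{0,1}`, `{1,2}`) -/
lemma adj {f : Fin 4 → Fin 5 → ℝ} (h : Good f) {i j : Fin 4} (hi : Cov 0 1 (f i))
    (hj : Cov 1 2 (f j)) :
    ((f i 0 = 0 ∧ f i 1 = 0) ∧ (f j 1 = 0 ∧ f j 2 = 0)) ∨
    ((f i 2 = f i 3 ∧ f i 3 = f i 4) ∧ (f j 0 = f j 3 ∧ f j 3 = f j 4)) := by
  rw [cov01_iff] at hi
  rw [cov12_iff] at hj
  have s1 := S1 h
  have s2 := S2 h
  rcases hi with hi | hi <;> rcases hj with hj | hj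
  · exact Or.inl ⟨hi, hj⟩
  · exfalso
    have hsi := h.sum i
    have hsj := h.sum j
    have hni := ne_zero_cases (h.ne i)
    have hnj := ne_zero_cases (h.ne j)
    have s1j := s1 j
    have s2i := s2 i
    by_cases hij : i = j
    · subst hij
      grind
    · have ho := h.orth i j hij
      have : f i 2 * (f j 2 - f j 0) = 0 := by
        rw [hi.1, hi.2, ← hj.2, ← hj.1] at ho
        have : f i 2 + f i 3 + f i 4 = 0 := by linarith
        linear_combination ho - f j 0 * this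
      rcases mul_eq_zero.1 this with h1 | h1
      · exact s2i ⟨hi.1, hi.2, h1⟩
      · exact s1j ⟨by linarith, by linarith, hj.2⟩
  · exfalso
    have hsi := h.sum i
    have hsj := h.sum j
    have hni := ne_zero_cases (h.ne i)
    have hnj := ne_zero_cases (h.ne j)
    have s1i := s1 i
    have s2j := s2 j
    by_cases hij : i = j
    · subst hij
      grind
    · have ho := h.orth i j hij
      have : f j 0 * (f i 0 - f i 2) = 0 := by
        rw [hj.1, hj.2, ← hi.2, ← hi.1] at ho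
        have : f j 0 + f j 3 + f j 4 = 0 := by linarith
        linear_combination ho - f i 2 * this
      rcases mul_eq_zero.1 this with h1 | h1
      · exact s2j ⟨h1, hj.1, hj.2⟩
      · exact s1i ⟨by linarith, hi.1, hi.2⟩
  · exact Or.inr ⟨hi, hj⟩

/-- types of covers of opposite pairs `{0,1}`, `{2,3}` cannot agree -/
lemma opp {f : Fin 4 → Fin 5 → ℝ} (h : Good f) {i j : Fin 4} (hi : Cov 0 1 (f i))
    (hj : Cov 2 3 (f j)) :
    ((f i 0 = 0 ∧ f i 1 = 0) ∧ (f j 0 = f j 1 ∧ f j 1 = f j 4)) ∨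
    ((f i 2 = f i 3 ∧ f i 3 = f i 4) ∧ (f j 2 = 0 ∧ f j 3 = 0)) := by
  rw [cov01_iff] at hi
  rw [cov23_iff] at hj
  have s3 := S3 h
  have s3' := S3 (rot_good (rot_good h))
  have hsi := h.sum i
  have hsj := h.sum j
  have hni := ne_zero_cases (h.ne i)
  have hnj := ne_zero_cases (h.ne j)
  have s3i := s3 i
  have s3j := s3 j
  have s3i' := s3' i
  have s3j' := s3' j
  simp [rot] at s3i' s3j'
  rcases hi with hi | hi <;> rcases hj with hj | hj
  · exfalso
    by_cases hij : i = j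
    · subst hij
      grind
    · have ho := h.orth i j hij
      grind
  · exact Or.inl ⟨hi, hj⟩
  · exact Or.inr ⟨hi, hj⟩
  · exfalso
    by_cases hij : i = j
    · subst hij
      grind
    · have ho := h.orth i j hij
      grind

theorem not_good {f : Fin 4 → Fin 5 → ℝ} (h : Good f) : False := by
  obtain ⟨i, hi⟩ := h.c01
  obtain ⟨j, hj⟩ := h.c12
  obtain ⟨k, hk⟩ := h.c23
  have h1 := adj h hi hj
  have h2 : ((f j 1 = 0 ∧ f j 2 = 0) ∧ (f k 2 = 0 ∧ f k 3 = 0)) ∨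
    ((f j 3 = f j 0 ∧ f j 0 = f j 4) ∧ (f k 1 = f k 0 ∧ f k 0 = f k 4)) := by
    have hr := rot_good h
    have c1 : Cov 0 1 (rot f j) := by
      rw [cov12_iff] at hj
      rw [cov01_iff]
      simp [rot]
      grind
    have c2 : Cov 1 2 (rot f k) := by
      rw [cov23_iff] at hk
      rw [cov12_iff]
      simp [rot]
      grind
    have := adj hr c1 c2
    simpa [rot] using this
  have h3 := opp h hi hk
  have hni := ne_zero_cases (h.ne i)
  have hnj := ne_zero_cases (h.ne j)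
  have hnk := ne_zero_cases (h.ne k)
  have hsi := h.sum i
  have hsj := h.sum j
  have hsk := h.sum k
  rcases h1 with ⟨⟨a1, a2⟩, a3, a4⟩ | ⟨⟨a1, a2⟩, a3, a4⟩ <;>
  rcases h2 with ⟨⟨b1, b2⟩, b3, b4⟩ | ⟨⟨b1, b2⟩, b3, b4⟩ <;>
  rcases h3 with ⟨⟨c1, c2⟩, c3, c4⟩ | ⟨⟨c1, c2⟩, c3, c4⟩
  · apply hnk
    refine ⟨?_, ?_, ?_, ?_, ?_⟩ <;> linarith
  · apply hni
    refine ⟨?_, ?_, ?_, ?_, ?_⟩ <;> linarith
  · apply hnj
    refine ⟨?_, ?_, ?_, ?_, ?_⟩ <;> linarith
  · apply hnj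
    refine ⟨?_, ?_, ?_, ?_, ?_⟩ <;> linarith
  · apply hnj
    refine ⟨?_, ?_, ?_, ?_, ?_⟩ <;> linarith
  · apply hnj
    refine ⟨?_, ?_, ?_, ?_, ?_⟩ <;> linarith
  · apply hni
    refine ⟨?_, ?_, ?_, ?_, ?_⟩ <;> linarith
  · apply hnk
    refine ⟨?_, ?_, ?_, ?_, ?_⟩ <;> linarith

end Pool.Agent.LibOrth
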