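import Pool.Agent.LibOrth.Alg

set_option autoImplicit false

open Filter Topology
open scoped ContDiff

namespace Pool.Agent.LibOrth

abbrev E4 := Fin 4 → ℝ

/-- partial derivative -/
noncomputable def pd (k : Fin 4) (f : E4 → ℝ) : E4 → ℝ :=
  fun x => fderiv ℝ f x (Pi.single k 1)

/-- the subring of germs at `x₀` of functions that are smooth at `x₀` -/
def Sm (x₀ : E4) : Subring (Germ (𝓝 x₀) ℝ) where
  carrier := {g | ∃ f : E4 → ℝ, ContDiffAt ℝ ∞ f x₀ ∧ (f : Germ (𝓝 x₀) ℝ) = g}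
  mul_mem' := by
    rintro _ _ ⟨f, hf, rfl⟩ ⟨g, hg, rfl⟩
    exact ⟨f * g, hf.mul hg, rfl⟩
  one_mem' := ⟨1, contDiffAt_const, rfl⟩
  add_mem' := by
    rintro _ _ ⟨f, hf, rfl⟩ ⟨g, hg, rfl⟩
    exact ⟨f + g, hf.add hg, rfl⟩
  zero_mem' := ⟨0, contDiffAt_const, rfl⟩
  neg_mem' := by
    rintro _ ⟨f, hf, rfl⟩
    exact ⟨-f, hf.neg, rfl⟩

/-- the germ of a smooth function -/
def mk {x₀ : E4} (f : E4 → ℝ) (hf : ContDiffAt ℝ ∞ f x₀) : Sm x₀ := ⟨(f : Germ (𝓝 x₀) ℝ), f, hf, rfl⟩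

lemma mk_eq {x₀ : E4} {f g : E4 → ℝ} (hf : ContDiffAt ℝ ∞ f x₀) (hg : ContDiffAt ℝ ∞ g x₀) :
    mk f hf = mk g hg ↔ f =ᶠ[𝓝 x₀] g := by
  constructor
  · intro h
    exact Filter.Germ.coe_eq.1 (congrArg Subtype.val h)
  · intro h
    exact Subtype.ext (Filter.Germ.coe_eq.2 h)

lemma exists_mk {x₀ : E4} (a : Sm x₀) : ∃ (f : E4 → ℝ) (hf : ContDiffAt ℝ ∞ f x₀), a = mk f hf := by
  obtain ⟨_, f, hf, rfl⟩ := a
  exact ⟨f, hf, rfl⟩

lemma pd_smooth {x₀ : E4} (k : Fin 4) {f : E4 → ℝ} (hf : ContDiffAt ℝ ∞ f x₀) :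
    ContDiffAt ℝ ∞ (pd k f) x₀ := by
  have h : ContDiffAt ℝ ∞ (fderiv ℝ f) x₀ := hf.fderiv_right (by simp)
  exact h.clm_apply contDiffAt_const

lemma pd_congr {x₀ : E4} (k : Fin 4) {f g : E4 → ℝ} (h : f =ᶠ[𝓝 x₀] g) :
    pd k f =ᶠ[𝓝 x₀] pd k g := by
  filter_upwards [h.fderiv (𝕜 := ℝ)] with x hx
  unfold pd
  rw [hx]

lemma ev_c2 {x₀ : E4} {f : E4 → ℝ} (hf : ContDiffAt ℝ ∞ f x₀) :
    ∀ᶠ x in 𝓝 x₀, ContDiffAt ℝ 2 f x := by
  have h2 : ContDiffAt ℝ 2 f x₀ := hf.of_le ENat.LEInfty.out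
  exact h2.eventually (by decide)

noncomputable def dfun (x₀ : E4) (k : Fin 4) (a : Sm x₀) : Sm x₀ :=
  mk (pd k (exists_mk a).choose) (pd_smooth k (exists_mk a).choose_spec.choose)

lemma dfun_mk {x₀ : E4} (k : Fin 4) {f : E4 → ℝ} (hf : ContDiffAt ℝ ∞ f x₀) :
    dfun x₀ k (mk f hf) = mk (pd k f) (pd_smooth k hf) := by
  unfold dfun
  rw [mk_eq]
  apply pd_congr
  exact ((mk_eq _ _).1 (exists_mk (mk f hf)).choose_spec.choose_spec).symm

lemma mk_add {x₀ : E4} {f g : E4 → ℝ} (hf : ContDiffAt ℝ ∞ f x₀) (hg : ContDiffAt ℝ ∞ g x₀) :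
    mk f hf + mk g hg = mk (f + g) (hf.add hg) := rfl

lemma mk_mul {x₀ : E4} {f g : E4 → ℝ} (hf : ContDiffAt ℝ ∞ f x₀) (hg : ContDiffAt ℝ ∞ g x₀) :
    mk f hf * mk g hg = mk (f * g) (hf.mul hg) := rfl

lemma mk_zero {x₀ : E4} : (mk 0 contDiffAt_const : Sm x₀) = 0 := rfl

lemma mk_one {x₀ : E4} : (mk 1 contDiffAt_const : Sm x₀) = 1 := rfl

lemma dfun_add {x₀ : E4} (k : Fin 4) (a b : Sm x₀) :
    dfun x₀ k (a + b) = dfun x₀ k a + dfun x₀ k b := by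
  obtain ⟨f, hf, rfl⟩ := exists_mk a
  obtain ⟨g, hg, rfl⟩ := exists_mk b
  rw [mk_add, dfun_mk, dfun_mk, dfun_mk, mk_add, mk_eq]
  filter_upwards [ev_c2 hf, ev_c2 hg] with x h1 h2
  unfold pd
  simp only [Pi.add_apply]
  rw [fderiv_add (h1.differentiableAt (by norm_num)) (h2.differentiableAt (by norm_num))]
  rfl

lemma dfun_mul {x₀ : E4} (k : Fin 4) (a b : Sm x₀) :
    dfun x₀ k (a * b) = a * dfun x₀ k b + b * dfun x₀ k a := by
  obtain ⟨f, hf, rfl⟩ := exists_mk a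
  obtain ⟨g, hg, rfl⟩ := exists_mk b
  rw [mk_mul, dfun_mk, dfun_mk, dfun_mk, mk_mul, mk_mul, mk_add, mk_eq]
  filter_upwards [ev_c2 hf, ev_c2 hg] with x h1 h2
  unfold pd
  simp only [Pi.add_apply, Pi.mul_apply]
  rw [fderiv_mul (h1.differentiableAt (by norm_num)) (h2.differentiableAt (by norm_num))]
  simp

lemma dfun_comm {x₀ : E4} (k l : Fin 4) (a : Sm x₀) :
    dfun x₀ k (dfun x₀ l a) = dfun x₀ l (dfun x₀ k a) := by
  obtain ⟨f, hf, rfl⟩ := exists_mk a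
  rw [dfun_mk, dfun_mk, dfun_mk, dfun_mk, mk_eq]
  filter_upwards [ev_c2 hf] with x hx
  have hd : DifferentiableAt ℝ (fderiv ℝ f) x :=
    (hx.fderiv_right (m := 1) (by norm_num)).differentiableAt (by norm_num)
  have key : ∀ k l : Fin 4, pd k (pd l f) x
      = fderiv ℝ (fderiv ℝ f) x (Pi.single k 1) (Pi.single l 1) := by
    intro k l
    unfold pd
    rw [fderiv_clm_apply hd (differentiableAt_const _)]
    simp
  rw [key, key]
  have hs : IsSymmSndFDerivAt ℝ f x := hx.isSymmSndFDerivAt (by simp)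
  exact hs _ _

lemma dfun_zero {x₀ : E4} (k : Fin 4) : dfun x₀ k 0 = 0 := by
  have := dfun_add k (0 : Sm x₀) 0
  simpa using this

noncomputable def dder (x₀ : E4) (k : Fin 4) : Derivation ℤ (Sm x₀) (Sm x₀) where
  toLinearMap := AddMonoidHom.toIntLinearMap
    { toFun := dfun x₀ k
      map_zero' := dfun_zero k
      map_add' := dfun_add k }
  map_one_eq_zero' := by
    change dfun x₀ k 1 = 0
    have := dfun_mul k (1 : Sm x₀) 1
    simpa using this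
  leibniz' := by
    intro a b
    exact dfun_mul k a b

/-- the ring of smooth germs with partial derivatives -/
noncomputable def germRing (x₀ : E4) : DRing (Sm x₀) where
  d := dder x₀
  comm := fun k l x => dfun_comm k l x
  ev := (Germ.valueRingHom (x := x₀) (E := ℝ)).comp (Sm x₀).subtype
  unit := by
    intro a ha
    obtain ⟨f, hf, rfl⟩ := exists_mk a
    have hf0 : f x₀ ≠ 0 := ha
    rw [isUnit_iff_exists_inv]
    refine ⟨mk f⁻¹ (hf.inv hf0), ?_⟩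
    rw [mk_mul, ← mk_one, mk_eq]
    filter_upwards [hf.continuousAt.eventually_ne hf0] with x hx
    simp [hx]

lemma germRing_ev {x₀ : E4} {f : E4 → ℝ} (hf : ContDiffAt ℝ ∞ f x₀) :
    (germRing x₀).ev (mk f hf) = f x₀ := rfl

lemma germRing_d {x₀ : E4} (k : Fin 4) {f : E4 → ℝ} (hf : ContDiffAt ℝ ∞ f x₀) :
    (germRing x₀).d k (mk f hf) = mk (pd k f) (pd_smooth k hf) := dfun_mk k hf

end Pool.Agent.LibOrth
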