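import Pool.Agent.LibOrth.Germ

set_option autoImplicit false

open Filter Topology
open scoped ContDiff

namespace Pool.Agent.LibOrth

/-- The gradient of `φ = ∑ y_i + y₀³y₁ + y₁³y₂ + y₂³y₃ + y₃³y₀`. -/
def gradPhi (y : E4) : Fin 4 → ℝ :=
  ![1 + 3 * y 0 ^ 2 * y 1 + y 3 ^ 3, 1 + y 0 ^ 3 + 3 * y 1 ^ 2 * y 2,
    1 + y 1 ^ 3 + 3 * y 2 ^ 2 * y 3, 1 + y 2 ^ 3 + 3 * y 3 ^ 2 * y 0]

section

variable {A : Type*} [CommRing A] {R : DRing A} {Y : Fin 4 → A}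

lemma W_expand (k l : Fin 4) :
    W (Pw Y) (Dv R k (Yv Y)) (Dv R l (Yv Y)) =
      ((1 + 3 * Y 0 ^ 2 * Y 1 + Y 3 ^ 3) * R.d k (Y 0) * R.d l (Y 0)
        + (1 + Y 0 ^ 3 + 3 * Y 1 ^ 2 * Y 2) * R.d k (Y 1) * R.d l (Y 1)
        + (1 + Y 1 ^ 3 + 3 * Y 2 ^ 2 * Y 3) * R.d k (Y 2) * R.d l (Y 2)
        + (1 + Y 2 ^ 3 + 3 * Y 3 ^ 2 * Y 0) * R.d k (Y 3) * R.d l (Y 3))
      + ((1 + 3 * Y 0 ^ 2 * Y 1 + Y 3 ^ 3) * R.d k (Y 0)
        + (1 + Y 0 ^ 3 + 3 * Y 1 ^ 2 * Y 2) * R.d k (Y 1)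
        + (1 + Y 1 ^ 3 + 3 * Y 2 ^ 2 * Y 3) * R.d k (Y 2)
        + (1 + Y 2 ^ 3 + 3 * Y 3 ^ 2 * Y 0) * R.d k (Y 3))
        * ((1 + 3 * Y 0 ^ 2 * Y 1 + Y 3 ^ 3) * R.d l (Y 0)
        + (1 + Y 0 ^ 3 + 3 * Y 1 ^ 2 * Y 2) * R.d l (Y 1)
        + (1 + Y 1 ^ 3 + 3 * Y 2 ^ 2 * Y 3) * R.d l (Y 2)
        + (1 + Y 2 ^ 3 + 3 * Y 3 ^ 2 * Y 0) * R.d l (Y 3)) := by
  have h1 : ∀ k, R.d k (phi Y) = (1 + 3 * Y 0 ^ 2 * Y 1 + Y 3 ^ 3) * R.d k (Y 0)
        + (1 + Y 0 ^ 3 + 3 * Y 1 ^ 2 * Y 2) * R.d k (Y 1)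
        + (1 + Y 1 ^ 3 + 3 * Y 2 ^ 2 * Y 3) * R.d k (Y 2)
        + (1 + Y 2 ^ 3 + 3 * Y 3 ^ 2 * Y 0) * R.d k (Y 3) := by
    intro k
    simp only [phi, map_add, Derivation.leibniz, Derivation.leibniz_pow, smul_eq_mul,
      nsmul_eq_mul]
    push_cast
    ring
  unfold W
  rw [Fin.sum_univ_five]
  simp only [Pw, Dv, Yv, Matrix.cons_val, h1]
  ring

end

theorem no_orth_chart (φ : OpenPartialHomeomorph E4 E4) (h0 : (0 : E4) ∈ φ.source)
    (hφ : ContDiffOn ℝ ∞ φ φ.source) (hs : ContDiffOn ℝ ∞ φ.symm φ.target)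
    (horth : ∀ x ∈ φ.target, ∀ k l : Fin 4, k ≠ l →
      (∑ a, gradPhi (φ.symm x) a * fderiv ℝ φ.symm x (Pi.single k 1) a
        * fderiv ℝ φ.symm x (Pi.single l 1) a)
      + (∑ a, gradPhi (φ.symm x) a * fderiv ℝ φ.symm x (Pi.single k 1) a)
        * (∑ a, gradPhi (φ.symm x) a * fderiv ℝ φ.symm x (Pi.single l 1) a) = 0) : False := by
  set x₀ : E4 := φ 0 with hx₀
  have hx₀t : x₀ ∈ φ.target := φ.map_source h0
  have hS0 : φ.symm x₀ = 0 := φ.left_inv h0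
  have hSsm : ContDiffAt ℝ ∞ φ.symm x₀ := hs.contDiffAt (φ.open_target.mem_nhds hx₀t)
  have hYsm : ∀ a, ContDiffAt ℝ ∞ (fun x => φ.symm x a) x₀ := fun a =>
    (contDiffAt_pi.1 hSsm) a
  have hdiff : ∀ x ∈ φ.target, DifferentiableAt ℝ φ.symm x := fun x hx =>
    (hs.contDiffAt (φ.open_target.mem_nhds hx)).differentiableAt (by simp)
  have hpd : ∀ x ∈ φ.target, ∀ k a, pd k (fun x => φ.symm x a) x
      = fderiv ℝ φ.symm x (Pi.single k 1) a := by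
    intro x hx k a
    unfold pd
    have h1 : HasFDerivAt (fun x => φ.symm x a)
        ((ContinuousLinearMap.proj (R := ℝ) (φ := fun _ : Fin 4 => ℝ) a).comp
          (fderiv ℝ φ.symm x)) x := by
      have := (hdiff x hx).hasFDerivAt
      exact (hasFDerivAt_pi'.1 this) a
    rw [h1.fderiv]
    rfl
  let Y : Fin 4 → Sm x₀ := fun a => mk (fun x => φ.symm x a) (hYsm a)
  have hC : Chart (germRing x₀) Y := by
    refine ⟨?_, ?_, ?_⟩
    · intro a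
      change (germRing x₀).ev (mk _ _) = 0
      rw [germRing_ev, hS0]
      rfl
    · intro k l hkl
      rw [W_expand]
      simp only [Y, germRing_d]
      apply Subtype.val_injective
      have hev : ∀ᶠ x in 𝓝 x₀, x ∈ φ.target := φ.open_target.mem_nhds hx₀t
      set F : Fin 4 → E4 → ℝ := fun a x => φ.symm x a with hF
      set G : Fin 4 → Fin 4 → E4 → ℝ := fun k a => pd k (F a) with hG
      have key : (((1 + 3 * F 0 ^ 2 * F 1 + F 3 ^ 3) * G k 0 * G l 0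
        + (1 + F 0 ^ 3 + 3 * F 1 ^ 2 * F 2) * G k 1 * G l 1
        + (1 + F 1 ^ 3 + 3 * F 2 ^ 2 * F 3) * G k 2 * G l 2
        + (1 + F 2 ^ 3 + 3 * F 3 ^ 2 * F 0) * G k 3 * G l 3)
      + ((1 + 3 * F 0 ^ 2 * F 1 + F 3 ^ 3) * G k 0
        + (1 + F 0 ^ 3 + 3 * F 1 ^ 2 * F 2) * G k 1
        + (1 + F 1 ^ 3 + 3 * F 2 ^ 2 * F 3) * G k 2
        + (1 + F 2 ^ 3 + 3 * F 3 ^ 2 * F 0) * G k 3)
        * ((1 + 3 * F 0 ^ 2 * F 1 + F 3 ^ 3) * G l 0
        + (1 + F 0 ^ 3 + 3 * F 1 ^ 2 * F 2) * G l 1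
        + (1 + F 1 ^ 3 + 3 * F 2 ^ 2 * F 3) * G l 2
        + (1 + F 2 ^ 3 + 3 * F 3 ^ 2 * F 0) * G l 3) : E4 → ℝ) =ᶠ[𝓝 x₀] 0 := by
        filter_upwards [hev] with x hx
        have h1 := horth x hx k l hkl
        simp only [Fin.sum_univ_four, gradPhi, Matrix.cons_val] at h1
        simp only [Pi.add_apply, Pi.mul_apply, Pi.pow_apply, Pi.one_apply, Pi.zero_apply,
          Pi.ofNat_apply, hG, hF, hpd x hx]
        linear_combination h1
      have key2 := Filter.Germ.coe_eq.2 key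
      exact key2
    · have hprod : (Matrix.of (fun k a : Fin 4 => (germRing x₀).ev ((germRing x₀).d k (Y a))))
          * (Matrix.of (fun a l : Fin 4 => fderiv ℝ φ 0 (Pi.single a 1) l)) = 1 := by
        have hφd : DifferentiableAt ℝ φ 0 :=
          (hφ.contDiffAt (φ.open_source.mem_nhds h0)).differentiableAt (by simp)
        have hcomp : HasFDerivAt (φ ∘ φ.symm) ((fderiv ℝ φ 0).comp (fderiv ℝ φ.symm x₀)) x₀ := by
          have h1 : HasFDerivAt φ (fderiv ℝ φ 0) (φ.symm x₀) := by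
            rw [hS0]; exact hφd.hasFDerivAt
          exact h1.comp x₀ (hdiff x₀ hx₀t).hasFDerivAt
        have hid : HasFDerivAt (φ ∘ φ.symm) (ContinuousLinearMap.id ℝ E4) x₀ := by
          apply (hasFDerivAt_id x₀).congr_of_eventuallyEq
          filter_upwards [φ.open_target.mem_nhds hx₀t] with x hx
          exact φ.right_inv hx
        have heq := hcomp.unique hid
        ext k l
        rw [Matrix.mul_apply]
        have h2 : fderiv ℝ φ 0 (fderiv ℝ φ.symm x₀ (Pi.single k 1)) = Pi.single k 1 := by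
          have := congrArg (fun L : E4 →L[ℝ] E4 => L (Pi.single k 1)) heq
          simpa using this
        have h3 : fderiv ℝ φ.symm x₀ (Pi.single k 1)
            = ∑ a, (fderiv ℝ φ.symm x₀ (Pi.single k 1) a) • (Pi.single a 1 : E4) := by
          funext b
          simp [Finset.sum_apply, Pi.single_apply]
        rw [h3, map_sum] at h2
        have h4 := congrFun h2 l
        simp only [map_smul, Finset.sum_apply, Pi.smul_apply, smul_eq_mul] at h4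
        have h5 : ∀ a, (germRing x₀).ev ((germRing x₀).d k (Y a))
            = fderiv ℝ φ.symm x₀ (Pi.single k 1) a := by
          intro a
          simp only [Y]
          rw [germRing_d, germRing_ev, hpd x₀ hx₀t]
        simp only [Matrix.of_apply, h5]
        rw [h4, Matrix.one_apply, Pi.single_apply]
        simp only [eq_comm]
      exact IsUnit.of_mul_eq_one _ hprod
  exact no_chart hC

end Pool.Agent.LibOrth
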