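import Pool.Agent.LibOrth.NoChart

set_option autoImplicit false

open Filter Topology
open scoped ContDiff

namespace Pool.Agent.LibOrth

abbrev E5 := (Fin 4 ⊕ Fin 1) → ℝ

/-- the first four coordinates -/
def pr (q : E5) : E4 := fun i => q (Sum.inl i)

/-- `1 + ∑ φ_i` -/
def sg (y : E4) : ℝ := 1 + ∑ a, gradPhi y a

/-- the function `φ` -/
def phiR (y : E4) : ℝ :=
  y 0 + y 1 + y 2 + y 3 + y 0 ^ 3 * y 1 + y 1 ^ 3 * y 2 + y 2 ^ 3 * y 3 + y 3 ^ 3 * y 0

lemma phiR_hasFDerivAt (y : E4) : HasFDerivAt phiR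
    (∑ a, gradPhi y a • ContinuousLinearMap.proj (R := ℝ) (φ := fun _ : Fin 4 => ℝ) a) y := by
  have h : ∀ a : Fin 4, HasFDerivAt (fun f : E4 => f a)
      (ContinuousLinearMap.proj (R := ℝ) (φ := fun _ : Fin 4 => ℝ) a) y :=
    fun a => hasFDerivAt_apply (𝕜 := ℝ) a y
  have := (((((((h 0).add (h 1)).add (h 2)).add (h 3)).add (((h 0).pow 3).mul (h 1))).add
    (((h 1).pow 3).mul (h 2))).add (((h 2).pow 3).mul (h 3))).add (((h 3).pow 3).mul (h 0))
  refine this.congr_fderiv ?_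
  ext v
  simp [gradPhi, Fin.sum_univ_four]
  ring

/-- the five orthogonal coordinate functions on the product -/
def F5 (q : E5) : E5 :=
  Sum.elim (fun i => q (Sum.inl i) + q (Sum.inr 0)) (fun _ => q (Sum.inr 0) - phiR (pr q))

lemma F5_smooth : ContDiff ℝ ∞ F5 := by
  rw [contDiff_pi]
  intro i
  rcases i with i | i
  · simp only [F5, Sum.elim_inl]
    fun_prop
  · simp only [F5, Sum.elim_inr, phiR, pr]
    fun_prop

lemma F5_fderiv_inl (q v : E5) (i : Fin 4) :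
    fderiv ℝ F5 q v (Sum.inl i) = v (Sum.inl i) + v (Sum.inr 0) := by
  have h := (F5_smooth.differentiable (by simp) q).hasFDerivAt
  have h1 := (hasFDerivAt_pi'.1 h) (Sum.inl i)
  have h2 : HasFDerivAt (fun q : E5 => F5 q (Sum.inl i))
      (ContinuousLinearMap.proj (R := ℝ) (φ := fun _ : Fin 4 ⊕ Fin 1 => ℝ) (Sum.inl i)
        + ContinuousLinearMap.proj (R := ℝ) (φ := fun _ : Fin 4 ⊕ Fin 1 => ℝ) (Sum.inr 0)) q :=
    (hasFDerivAt_apply (𝕜 := ℝ) (Sum.inl i) q).add (hasFDerivAt_apply (𝕜 := ℝ) (Sum.inr 0) q)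
  have h3 := h1.unique h2
  have h4 := congrArg (fun L : E5 →L[ℝ] ℝ => L v) h3
  simpa using h4

lemma F5_fderiv_inr (q v : E5) (i : Fin 1) :
    fderiv ℝ F5 q v (Sum.inr i) = v (Sum.inr 0) - ∑ a, gradPhi (pr q) a * v (Sum.inl a) := by
  have h := (F5_smooth.differentiable (by simp) q).hasFDerivAt
  have h1 := (hasFDerivAt_pi'.1 h) (Sum.inr i)
  let Lp : E5 →L[ℝ] E4 := ContinuousLinearMap.pi (fun a : Fin 4 =>
    ContinuousLinearMap.proj (R := ℝ) (φ := fun _ : Fin 4 ⊕ Fin 1 => ℝ) (Sum.inl a))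
  have hpr : HasFDerivAt pr Lp q := Lp.hasFDerivAt
  have h2 : HasFDerivAt (fun q : E5 => F5 q (Sum.inr i))
      (ContinuousLinearMap.proj (R := ℝ) (φ := fun _ : Fin 4 ⊕ Fin 1 => ℝ) (Sum.inr 0)
        - (∑ a, gradPhi (pr q) a • ContinuousLinearMap.proj (R := ℝ)
            (φ := fun _ : Fin 4 => ℝ) a).comp Lp) q :=
    (hasFDerivAt_apply (𝕜 := ℝ) (Sum.inr 0) q).sub ((phiR_hasFDerivAt (pr q)).comp q hpr)
  have h3 := h1.unique h2
  have h4 := congrArg (fun L : E5 →L[ℝ] ℝ => L v) h3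
  simpa [Lp] using h4

/-- the gradient fields of the five functions -/
noncomputable def V5 (y : E4) : Fin 4 ⊕ Fin 1 → E5 :=
  Sum.elim
    (fun i => Sum.elim (fun a => (if a = i then sg y / gradPhi y i else 0) - 1) (fun _ => 1))
    (fun _ => Sum.elim (fun _ => -1) (fun _ => 1))

/-- their squared norms -/
noncomputable def N5 (y : E4) : Fin 4 ⊕ Fin 1 → ℝ :=
  Sum.elim (fun i => sg y / gradPhi y i) (fun _ => sg y)

lemma sg_pos {y : E4} (hy : ∀ a, 0 < gradPhi y a) : 0 < sg y := by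
  unfold sg
  have := Finset.sum_nonneg (fun a (_ : a ∈ (Finset.univ : Finset (Fin 4))) => (hy a).le)
  linarith

lemma N5_pos {y : E4} (hy : ∀ a, 0 < gradPhi y a) (i : Fin 4 ⊕ Fin 1) : 0 < N5 y i := by
  rcases i with i | i
  · exact div_pos (sg_pos hy) (hy i)
  · exact sg_pos hy

lemma F5_V5 {q : E5} (hy : ∀ a, 0 < gradPhi (pr q) a) (i : Fin 4 ⊕ Fin 1) :
    fderiv ℝ F5 q (V5 (pr q) i) = N5 (pr q) i • (Pi.single i 1 : E5) := by
  funext j
  have hne := fun a => (hy a).ne'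
  rcases i with i | i <;> rcases j with j | j
  · rw [F5_fderiv_inl]
    by_cases hij : j = i
    · subst hij
      simp [V5, N5]
    · simp [V5, N5, hij]
  · rw [F5_fderiv_inr]
    have : ∑ a, gradPhi (pr q) a * V5 (pr q) (Sum.inl i) (Sum.inl a)
        = sg (pr q) - ∑ a, gradPhi (pr q) a := by
      simp only [V5, Sum.elim_inl, mul_sub, mul_ite, mul_zero, mul_one]
      rw [Finset.sum_sub_distrib]
      simp
      field_simp [hne i]
    rw [this]
    simp [V5, N5, sg]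
  · rw [F5_fderiv_inl]
    simp [V5, N5]
  · rw [F5_fderiv_inr]
    have : ∑ a, gradPhi (pr q) a * V5 (pr q) (Sum.inr i) (Sum.inl a)
        = - ∑ a, gradPhi (pr q) a := by
      simp [V5]
    rw [this]
    have hij : j = i := Subsingleton.elim _ _
    subst hij
    simp [V5, N5, sg]

/-- the derivative is invertible -/
lemma F5_bij {q : E5} (hy : ∀ a, 0 < gradPhi (pr q) a) :
    ∃ e : E5 ≃L[ℝ] E5, (e : E5 →L[ℝ] E5) = fderiv ℝ F5 q := by
  have hsurj : Function.Surjective (fderiv ℝ F5 q) := by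
    intro w
    refine ⟨∑ i, (w i / N5 (pr q) i) • V5 (pr q) i, ?_⟩
    rw [map_sum]
    simp only [map_smul, F5_V5 hy]
    funext j
    simp only [Finset.sum_apply, Pi.smul_apply, smul_eq_mul, Pi.single_apply, mul_ite, mul_one,
      mul_zero, Finset.sum_ite_eq, Finset.mem_univ, if_true]
    have := (N5_pos hy j).ne'
    field_simp
  have hinj : Function.Injective (fderiv ℝ F5 q) :=
    (LinearMap.injective_iff_surjective (f := (fderiv ℝ F5 q : E5 →ₗ[ℝ] E5))).2 hsurj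
  refine ⟨ContinuousLinearEquiv.ofBijective (fderiv ℝ F5 q) ?_ ?_, ?_⟩
  · exact LinearMap.ker_eq_bot.2 hinj
  · exact LinearMap.range_eq_top.2 hsurj
  · exact ContinuousLinearEquiv.coe_ofBijective _ _ _

/-- the metric on the four dimensional factor -/
noncomputable def g4 (y : E4) : Matrix (Fin 4) (Fin 4) ℝ :=
  Matrix.of fun i j => ((if i = j then gradPhi y i else 0) + gradPhi y i * gradPhi y j) / sg y

lemma g4_quad (y u v : E4) :
    u ⬝ᵥ (g4 y).mulVec v = ((∑ a, gradPhi y a * u a * v a)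
      + (∑ a, gradPhi y a * u a) * (∑ a, gradPhi y a * v a)) / sg y := by
  simp only [Matrix.mulVec, dotProduct, g4, Matrix.of_apply, Fin.sum_univ_four]
  simp
  ring

/-- the chart on the product -/
theorem exists_chart {U : Set E4} (hU : IsOpen U) (hUpos : ∀ y ∈ U, ∀ a, 0 < gradPhi y a)
    {p : E5} (hp : pr p ∈ U) :
    ∃ φ : OpenPartialHomeomorph E5 E5, p ∈ φ.source ∧ (∀ q ∈ φ.source, pr q ∈ U) ∧
      ContDiffOn ℝ ∞ φ φ.source ∧ ContDiffOn ℝ ∞ φ.symm φ.target ∧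
      ∀ x ∈ φ.target, ∀ i, fderiv ℝ φ.symm x (Pi.single i 1)
        = (N5 (pr (φ.symm x)) i)⁻¹ • V5 (pr (φ.symm x)) i := by
  obtain ⟨e, he⟩ := F5_bij (hUpos _ hp)
  have hd : HasFDerivAt F5 (e : E5 →L[ℝ] E5) p := by
    rw [he]
    exact (F5_smooth.differentiable (by simp) p).hasFDerivAt
  have hVo : IsOpen (pr ⁻¹' U) := hU.preimage (by unfold pr; fun_prop)
  let φ₀ := (F5_smooth.contDiffAt (x := p)).toOpenPartialHomeomorph F5 hd (by simp)
  let φ := φ₀.restrOpen (pr ⁻¹' U) hVo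
  have hcoe : (φ : E5 → E5) = F5 := rfl
  have hsrc : ∀ q ∈ φ.source, pr q ∈ U := by
    intro q hq
    have : q ∈ φ₀.source ∩ pr ⁻¹' U := by
      rw [OpenPartialHomeomorph.restrOpen_source] at hq
      exact hq
    exact this.2
  have hder : ∀ x ∈ φ.target, ∃ e : E5 ≃L[ℝ] E5, (e : E5 →L[ℝ] E5) = fderiv ℝ F5 (φ.symm x) ∧
      HasFDerivAt φ (e : E5 →L[ℝ] E5) (φ.symm x) := by
    intro x hx
    obtain ⟨e, he⟩ := F5_bij (hUpos _ (hsrc _ (φ.map_target hx)))
    refine ⟨e, he, ?_⟩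
    rw [he, hcoe]
    exact (F5_smooth.differentiable (by simp) _).hasFDerivAt
  refine ⟨φ, ?_, hsrc, ?_, ?_, ?_⟩
  · rw [OpenPartialHomeomorph.restrOpen_source]
    exact ⟨ContDiffAt.mem_toOpenPartialHomeomorph_source _ hd (by simp), hp⟩
  · rw [hcoe]
    exact F5_smooth.contDiffOn
  · intro x hx
    obtain ⟨e, he, hde⟩ := hder x hx
    exact (φ.contDiffAt_symm hx hde (by rw [hcoe]; exact F5_smooth.contDiffAt)).contDiffWithinAt
  · intro x hx i
    obtain ⟨e, he, hde⟩ := hder x hx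
    have h1 := φ.hasFDerivAt_symm hx hde
    rw [h1.fderiv]
    have hpos := hUpos _ (hsrc _ (φ.map_target hx))
    have h2 := F5_V5 hpos i
    have h3 : e (V5 (pr (φ.symm x)) i) = N5 (pr (φ.symm x)) i • (Pi.single i 1 : E5) := by
      rw [← h2, ← he]
      rfl
    have h4 : (Pi.single i 1 : E5) = (N5 (pr (φ.symm x)) i)⁻¹ • e (V5 (pr (φ.symm x)) i) := by
      rw [h3, smul_smul, inv_mul_cancel₀ (N5_pos hpos i).ne', one_smul]
    change e.symm (Pi.single i 1) = _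
    rw [h4, ← map_smul, e.symm_apply_apply]

end Pool.Agent.LibOrth
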